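import Pool.Agent.Lib.MP_a7239a_co.RK.LOW4
import Pool.Agent.Lib.MP_a7239a_co.RG.CYCG

/-!
# Cyclically free sets in groups of order `M n` and exponent `n` (no divisibility)
-/

set_option autoImplicit false

open Finset

namespace Pool.Agent.Lib.MPa7239a.RH

open Pool.Agent.Lib.MPa7239a.GC
open Pool.Agent.Lib.MPa7239a.RK

namespace LowrM

/-- the row numbers: rows `0, ..., b` have `h` elements, without `x₀` elements in row `0` and `x₁`
elements in row `i₀`; row `b + 1` has `v` elements, row `-1` has `u` elements -/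
def f (h b x₀ x₁ i₀ u v : ℕ) (i : ℤ) : ℤ :=
  (if 0 ≤ i ∧ i ≤ (b : ℤ) then (h : ℤ) else 0) - (if i = 0 then (x₀ : ℤ) else 0) -
    (if i = (i₀ : ℤ) then (x₁ : ℤ) else 0) + (if i = (b : ℤ) + 1 then (v : ℤ) else 0) +
    (if i = -1 then (u : ℤ) else 0)

theorem f_nonneg {h b x₀ x₁ i₀ u v : ℕ} (hi₀ : 1 ≤ i₀) (hi₀b : i₀ ≤ b) (hx₀ : x₀ ≤ h)
    (hx₁ : x₁ ≤ h) (i : ℤ) : 0 ≤ f h b x₀ x₁ i₀ u v i := by
  unfold f
  split_ifs <;> omega

theorem f_le {h b x₀ x₁ i₀ u v : ℕ} (hu : u ≤ h) (hv : v ≤ h) (i : ℤ) :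
    f h b x₀ x₁ i₀ u v i ≤ h := by
  unfold f
  split_ifs <;> omega

theorem sum_one {b : ℕ} {j : ℤ} (hj : -1 ≤ j) (hj' : j ≤ b + 1) (a : ℤ) :
    ∑ i ∈ Icc (-1 : ℤ) (b + 1), (if i = j then a else 0) = a := by
  rw [sum_ite_eq' (Icc (-1 : ℤ) (b + 1)) j (fun _ => a), if_pos (mem_Icc.2 ⟨hj, hj'⟩)]

theorem sum_one_mul {b : ℕ} {j : ℤ} (hj : -1 ≤ j) (hj' : j ≤ b + 1) (a : ℤ) :
    ∑ i ∈ Icc (-1 : ℤ) (b + 1), i * (if i = j then a else 0) = j * a := by
  rw [← sum_one hj hj' (j * a)]
  refine sum_congr rfl fun i _ => ?_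
  split_ifs with h
  · rw [h]
  · rw [mul_zero]

theorem sum_rows (b h : ℕ) :
    ∑ i ∈ Icc (-1 : ℤ) (b + 1), (if 0 ≤ i ∧ i ≤ (b : ℤ) then (h : ℤ) else 0) = (b + 1) * h := by
  rw [← Finset.sum_filter]
  have h1 : (Icc (-1 : ℤ) (b + 1)).filter (fun i : ℤ => 0 ≤ i ∧ i ≤ (b : ℤ)) =
      Icc (0 : ℤ) (b : ℤ) := by
    ext i; simp only [mem_filter, mem_Icc]; omega
  rw [h1, sum_const, Int.card_Icc, nsmul_eq_mul]
  have h2 : ((b : ℤ) + 1 - 0).toNat = b + 1 := by omega
  rw [h2]; push_cast; ring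

theorem sum_f {h b x₀ x₁ i₀ u v : ℕ} (hi₀b : i₀ ≤ b) :
    ∑ i ∈ Icc (-1 : ℤ) (b + 1), f h b x₀ x₁ i₀ u v i = (b + 1) * h - x₀ - x₁ + v + u := by
  unfold f
  rw [sum_add_distrib, sum_add_distrib, sum_sub_distrib, sum_sub_distrib, sum_rows,
    sum_one (by omega) (by omega), sum_one (by omega) (by omega), sum_one (by omega) le_rfl,
    sum_one le_rfl (by omega)]

theorem sum_mul_f {h b x₀ x₁ i₀ u v : ℕ} (hi₀b : i₀ ≤ b) :
    ∑ i ∈ Icc (-1 : ℤ) (b + 1), i * f h b x₀ x₁ i₀ u v i =
      cen b h - i₀ * x₁ + (b + 1) * v - u := by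
  unfold f
  have h1 : ∀ i : ℤ, i * ((if 0 ≤ i ∧ i ≤ (b : ℤ) then (h : ℤ) else 0) -
      (if i = 0 then (x₀ : ℤ) else 0) - (if i = (i₀ : ℤ) then (x₁ : ℤ) else 0) +
      (if i = (b : ℤ) + 1 then (v : ℤ) else 0) + (if i = -1 then (u : ℤ) else 0)) =
      i * (if 0 ≤ i ∧ i ≤ (b : ℤ) then (h : ℤ) else 0) - i * (if i = 0 then (x₀ : ℤ) else 0) -
        i * (if i = (i₀ : ℤ) then (x₁ : ℤ) else 0) + i * (if i = (b : ℤ) + 1 then (v : ℤ) else 0) +
        i * (if i = -1 then (u : ℤ) else 0) := fun i => by ring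
  rw [sum_congr rfl fun i _ => h1 i, sum_add_distrib, sum_add_distrib, sum_sub_distrib,
    sum_sub_distrib, sum_one_mul (by omega) (by omega), sum_one_mul (by omega) (by omega),
    sum_one_mul (by omega) le_rfl, sum_one_mul le_rfl (by omega)]
  unfold cen
  ring

/-- the set with given row numbers -/
theorem build {G : Type*} [AddCommGroup G] [Fintype G] [DecidableEq G] {o h b n c x₀ x₁ i₀ u v : ℕ}
    (φ : G →+ ZMod o) (hφ : Function.Surjective φ) (hfib : ∀ z : ZMod o, #{x : G | φ x = z} = h)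
    (hbo : b + 3 ≤ o) (hi₀ : 1 ≤ i₀) (hi₀b : i₀ ≤ b) (hx₀ : x₀ ≤ h) (hx₁ : x₁ ≤ h) (hu : u ≤ h)
    (hv : v ≤ h) (hc : ((b : ℤ) + 1) * h - x₀ - x₁ + v + u = n + c) {K : ℤ}
    (h1 : cen b h - i₀ * x₁ + (b + 1) * v + 1 ≤ K * o)
    (h2 : (K - 1) * o + 1 ≤ cen b h - i₀ * x₁ + (b + 1) * v - u - b * c - v) :
    ∃ A : Finset G, #A = n + c ∧ CycFree A n := by
  classical
  have hcle : ∀ i : ℤ, (f h b x₀ x₁ i₀ u v i).toNat ≤ #{x : G | φ x = (i : ZMod o)} := by
    intro i
    rw [hfib]
    have := f_le (b := b) (x₀ := x₀) (x₁ := x₁) (i₀ := i₀) hu hv i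
    omega
  choose S hSF hSc using fun i : ℤ => exists_subset_card_eq (hcle i)
  have hSc' : ∀ i : ℤ, (#(S i) : ℤ) = f h b x₀ x₁ i₀ u v i := by
    intro i
    rw [hSc, Int.toNat_of_nonneg (f_nonneg hi₀ hi₀b hx₀ hx₁ i)]
  have hcard : ∑ i ∈ Icc (-1 : ℤ) (b + 1), #(S i) = n + c := by
    have e1 : (∑ i ∈ Icc (-1 : ℤ) (b + 1), (#(S i) : ℤ)) = ((n + c : ℕ) : ℤ) := by
      rw [sum_congr rfl fun i _ => hSc' i, sum_f hi₀b, hc]
      push_cast
      rfl
    exact_mod_cast e1
  have hmul : ∑ i ∈ Icc (-1 : ℤ) (b + 1), i * (#(S i) : ℤ) =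
      cen b h - i₀ * x₁ + (b + 1) * v - u := by
    rw [sum_congr rfl fun i _ => by rw [hSc' i], sum_mul_f hi₀b]
  have hftop : #(S (b + 1)) = v := by
    have e1 := hSc' (b + 1)
    have e2 : f h b x₀ x₁ i₀ u v ((b : ℤ) + 1) = v := by
      unfold f
      rw [if_neg (by omega), if_neg (by omega), if_neg (by omega), if_pos rfl, if_neg (by omega)]
      ring
    rw [e2] at e1
    exact_mod_cast e1
  have hfbot : #(S (-1)) = u := by
    have e1 := hSc' (-1)
    have e2 : f h b x₀ x₁ i₀ u v (-1) = u := by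
      unfold f
      rw [if_neg (by omega), if_neg (by omega), if_neg (by omega), if_neg (by omega), if_pos rfl]
      ring
    rw [e2] at e1
    exact_mod_cast e1
  have hav := avoid_phi (o := o) φ (b := b) S (fun i x hx => (mem_filter.1 (hSF i hx)).2) hbo
    (y₁ := v) (y₂ := u) (c := c) (n := n) hftop.le hfbot.le (k := -K) hcard
    (by rw [hmul]; linarith) (by rw [hmul]; linarith)
  exact ⟨_, hav.1, o, φ, by omega, hφ, hav.2⟩

end LowrM

open LowrM

/-- **the lower bound**: `n + M - 1`, or a little less if `n` is odd and `n / M` is even -/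
theorem low_R {G : Type*} [AddCommGroup G] [Fintype G] [DecidableEq G] {M n : ℕ}
    (hexp : AddMonoid.exponent G = n) (hcard : Nat.card G = M * n) (hM : 3 ≤ M)
    (hn : 100 * M ≤ n) : ∃ (A : Finset G) (c : ℕ), #A + 2 = n + c ∧ CycFree A n ∧
      (n / M + 1) * (M + 1) + n ≤ 2 * (n / M + 1) * c ∧ (M + 1 ≤ c ∨ (Odd n ∧ Even (n / M))) := by
  classical
  have hn0 : 0 < n := by omega
  have : NeZero n := ⟨hn0.ne'⟩
  obtain ⟨ψ, hψ⟩ := RG.exists_phi hexp
  have hfib : ∀ z : ZMod n, #{x : G | ψ x = z} = M := by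
    intro z
    have h1 := RG.card_fib hψ z
    rw [hcard, mul_comm M] at h1
    exact Nat.eq_of_mul_eq_mul_left hn0 h1
  obtain ⟨b, hb⟩ : ∃ b, b = n / M := ⟨_, rfl⟩
  obtain ⟨R, hR⟩ : ∃ R, R = n % M := ⟨_, rfl⟩
  have hnb : n = b * M + R := by
    rw [hb, hR, mul_comm]
    exact (Nat.div_add_mod n M).symm
  have hRM : R < M := by
    rw [hR]
    exact Nat.mod_lt _ (by omega)
  have hb100 : 100 ≤ b := by
    rw [hb, Nat.le_div_iff_mul_le (by omega)]
    exact hn
  rw [← hb]
  have hb3 : b + 3 ≤ n := by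
    have : 3 * b ≤ b * M := by rw [mul_comm]; exact Nat.mul_le_mul_left b hM
    omega
  -- the inequality for `c = M + 1`
  have hineq : (b + 1) * (M + 1) + n ≤ 2 * (b + 1) * (M + 1) := by
    have h1 : 2 * (b + 1) * (M + 1) = (b + 1) * (M + 1) + (b + 1) * (M + 1) := by ring
    have h2 : (b + 1) * (M + 1) = b * M + M + b + 1 := by ring
    omega
  have hcen := two_cen b M
  have hnb' : (n : ℤ) = b * M + R := by exact_mod_cast hnb
  rcases Nat.even_or_odd b with hbe | hbo
  · obtain ⟨β, hβ⟩ := hbe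
    have hβ2 : b = 2 * β := by omega
    rcases Nat.even_or_odd n with hne | hno
    · -- L2
      obtain ⟨o, ho⟩ := hne
      have ho2 : n = 2 * o := by omega
      have ho0 : 0 < o := by omega
      have : NeZero o := ⟨ho0.ne'⟩
      have hdvd : o ∣ n := ⟨2, by omega⟩
      set φ : G →+ ZMod o := (ZMod.castHom hdvd (ZMod o)).toAddMonoidHom.comp ψ with hφ
      have hφs : Function.Surjective φ := (ZMod.castHom_surjective hdvd).comp hψ
      have hfib2 : ∀ z : ZMod o, #{x : G | φ x = z} = 2 * M := by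
        intro z
        have h1 := RG.card_fib hφs z
        rw [hcard, ho2] at h1
        have h2 : o * #{x : G | φ x = z} = o * (2 * M) := by
          rw [h1]
          ring
        exact Nat.eq_of_mul_eq_mul_left ho0 h2
      obtain ⟨R', hR'⟩ : ∃ R', R = 2 * R' := by
        have h1 : b * M = 2 * (β * M) := by rw [hβ2]; ring
        exact ⟨o - β * M, by omega⟩
      have ho' : o = β * M + R' := by
        have h1 : b * M = 2 * (β * M) := by rw [hβ2]; ring
        omega
      have hoZ : (o : ℤ) = β * M + R' := by exact_mod_cast ho'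
      have hcen2 := two_cen β (2 * M)
      have hcen3 : cen β (2 * M) = β * (β + 1) * M := by
        push_cast at hcen2
        linarith
      obtain ⟨A, hA, hAc⟩ := build (b := β) (n := n) (c := M - 1) (x₀ := M - R') (x₁ := 1)
        (i₀ := 1) (u := 0) (v := R') φ hφs hfib2
        (by
          have : 3 * β ≤ β * M := by rw [mul_comm]; exact Nat.mul_le_mul_left β hM
          omega)
        le_rfl (by omega) (by omega) (by omega) (by omega) (by omega)
        (by
          have e1 : ((M - R' : ℕ) : ℤ) = M - R' := by omega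
          have e2 : ((M - 1 : ℕ) : ℤ) = M - 1 := by omega
          rw [e1, e2, hnb', hR', hβ2]
          push_cast
          ring) (K := β + 1)
        (by
          rw [hcen3, hoZ]
          push_cast
          apply le_of_eq
          ring)
        (by
          have e2 : ((M - 1 : ℕ) : ℤ) = M - 1 := by omega
          rw [hcen3, hoZ, e2]
          push_cast
          have e3 : (2 : ℤ) ≤ β := by omega
          have e4 : (β : ℤ) * (β + 1) * M - 1 * 1 + (β + 1) * R' - 0 - β * (M - 1) - R' =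
            (β + 1 - 1) * (β * M + R') + β - 1 := by ring
          linarith)
      refine ⟨A, M + 1, by omega, hAc, hineq, Or.inl le_rfl⟩
    · -- L3
      have hRodd : Odd R := by
        rw [Nat.odd_iff] at hno ⊢
        have h1 : b * M = 2 * (β * M) := by rw [hβ2]; ring
        omega
      have hR1 : 1 ≤ R := hRodd.pos
      obtain ⟨e, he⟩ : ∃ e, e = (M - R) / 2 + 1 := ⟨_, rfl⟩
      obtain ⟨δ, hδ⟩ : ∃ δ, δ = (e + 2 + b) / (b + 1) := ⟨_, rfl⟩
      have hδ1 : e + 2 ≤ (b + 1) * δ := by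
        have h1 := Nat.div_add_mod (e + 2 + b) (b + 1)
        have h2 := Nat.mod_lt (e + 2 + b) (show 0 < b + 1 by omega)
        rw [← hδ] at h1
        omega
      have hδ2 : (b + 1) * δ ≤ e + 2 + b := by
        rw [hδ]
        exact Nat.mul_div_le _ _
      have hδ3 : δ ≤ e := by
        by_contra hlt
        push Not at hlt
        have h1 : (b + 1) * (e + 1) ≤ (b + 1) * δ := Nat.mul_le_mul_left _ hlt
        have h2 : (b + 1) * (e + 1) = b * e + e + b + 1 := by ring
        have h3 : 100 * e ≤ b * e := Nat.mul_le_mul_right e hb100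
        omega
      have hδ4 : 1 ≤ δ := by
        rcases Nat.eq_zero_or_pos δ with h | h
        · rw [h, mul_zero] at hδ1
          omega
        · exact h
      -- the row with one missing element
      obtain ⟨i₀, hi₀, hi₀1, hi₀b⟩ : ∃ i₀ : ℕ, 2 * (i₀ : ℤ) = 2 * e * b - 2 - b * (M - R) ∧
          1 ≤ i₀ ∧ i₀ ≤ b := by
        rcases Nat.even_or_odd (M - R) with h | h
        · refine ⟨b - 1, ?_, by omega, by omega⟩
          obtain ⟨k, hk⟩ := h
          have e1 : (e : ℤ) = k + 1 := by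
            have : e = k + 1 := by omega
            exact_mod_cast this
          have e2 : (M : ℤ) - R = 2 * k := by omega
          have e3 : ((b - 1 : ℕ) : ℤ) = b - 1 := by omega
          rw [e1, e2, e3]
          ring
        · refine ⟨β - 1, ?_, by omega, by omega⟩
          obtain ⟨k, hk⟩ := h
          have e1 : (e : ℤ) = k + 1 := by
            have : e = k + 1 := by omega
            exact_mod_cast this
          have e2 : (M : ℤ) - R = 2 * k + 1 := by omega
          have e3 : ((β - 1 : ℕ) : ℤ) = β - 1 := by omega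
          rw [e1, e2, e3, hβ2]
          push_cast
          ring
      have e1 : ((e - 1 : ℕ) : ℤ) = e - 1 := by omega
      have e2 : ((R + e - δ : ℕ) : ℤ) = R + e - δ := by omega
      have e3 : ((M - δ : ℕ) : ℤ) = M - δ := by omega
      have hδ1' : (e : ℤ) + 2 ≤ (b + 1) * δ := by exact_mod_cast hδ1
      -- `W = (β + 1) n + 1 + e - (b + 1) δ`
      have hW : cen b M - i₀ * (1 : ℕ) + (b + 1) * ((R + e - δ : ℕ) : ℤ) =
          (β + 1) * n + 1 + e - (b + 1) * δ := by
        have h1 : 2 * (cen b M - i₀ * (1 : ℕ) + (b + 1) * ((R + e - δ : ℕ) : ℤ)) =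
            2 * ((β + 1) * n + 1 + e - (b + 1) * δ) := by
          have h2 : 2 * (cen b M - i₀ * (1 : ℕ) + (b + 1) * ((R + e - δ : ℕ) : ℤ)) =
              2 * cen b M - 2 * i₀ + 2 * ((b + 1) * ((R + e - δ : ℕ) : ℤ)) := by
            push_cast
            ring
          rw [h2, hcen, hi₀, e2, hnb', hβ2]
          push_cast
          ring
        linarith
      obtain ⟨A, hA, hAc⟩ := build (b := b) (n := n) (c := M - δ) (x₀ := e - 1) (x₁ := 1)
        (i₀ := i₀) (u := 0) (v := R + e - δ) ψ hψ hfib hb3 hi₀1 hi₀b (by omega) (by omega)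
        (by omega) (by omega)
        (by
          rw [e1, e2, e3, hnb']
          push_cast
          ring) (K := β + 1)
        (by
          rw [hW]
          linarith)
        (by
          rw [hW, e2, e3, hnb']
          push_cast
          apply le_of_eq
          ring)
      refine ⟨A, M - δ + 2, by omega, hAc, ?_, Or.inr ⟨hno, hβ2 ▸ even_two_mul β⟩⟩
      -- `(b + 1) (2 δ - 3) ≤ M - R`
      have h1 : 2 * ((b + 1) * δ) ≤ (M - R) + 3 * (b + 1) := by omega
      have h2 : (b + 1) * (M - δ + 2) + (b + 1) * δ = (b + 1) * (M + 2) := by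
        rw [← mul_add]
        congr 1
        omega
      have h3 : (b + 1) * (M + 2) = b * M + M + 2 * (b + 1) := by ring
      have h4 : (b + 1) * (M + 1) = b * M + M + (b + 1) := by ring
      have h5 : 2 * (b + 1) * (M - δ + 2) = 2 * ((b + 1) * (M - δ + 2)) := by ring
      rw [h5, h4]
      omega
  · -- L1
    obtain ⟨β', hβ'⟩ := hbo
    obtain ⟨β, hβ⟩ : ∃ β, b = 2 * β - 1 ∧ 1 ≤ β := ⟨β' + 1, by omega, by omega⟩
    have hbβ : (b : ℤ) = 2 * β - 1 := by omega
    have hcen1 : cen b M = b * β * M := by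
      rw [hbβ] at hcen
      have h1 : (2 : ℤ) * cen b M = 2 * (b * β * M) := by
        rw [hcen, hbβ]
        ring
      linarith
    have hβ50 : (50 : ℤ) ≤ β := by omega
    have e2 : ((M - 1 : ℕ) : ℤ) = M - 1 := by omega
    rcases Nat.even_or_odd R with hRe | hRo
    · obtain ⟨v, hv⟩ := hRe
      have hRZ : (R : ℤ) = 2 * v := by omega
      obtain ⟨A, hA, hAc⟩ := build (b := b) (n := n) (c := M - 1) (x₀ := 0) (x₁ := 1)
        (i₀ := 1) (u := v) (v := v) ψ hψ hfib hb3 le_rfl (by omega) (by omega) (by omega)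
        (by omega) (by omega)
        (by
          rw [e2, hnb', hRZ]
          push_cast
          ring) (K := β)
        (by
          rw [hcen1, hnb', hRZ, hbβ]
          push_cast
          linarith)
        (by
          rw [hcen1, hnb', hRZ, e2, hbβ]
          push_cast
          linarith)
      exact ⟨A, M + 1, by omega, hAc, hineq, Or.inl le_rfl⟩
    · obtain ⟨v, hv⟩ := hRo
      have hRZ : (R : ℤ) = 2 * v + 1 := by omega
      obtain ⟨A, hA, hAc⟩ := build (b := b) (n := n) (c := M - 1) (x₀ := 1) (x₁ := 0)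
        (i₀ := 1) (u := v + 1) (v := v) ψ hψ hfib hb3 le_rfl (by omega) (by omega) (by omega)
        (by omega) (by omega)
        (by
          rw [e2, hnb', hRZ]
          push_cast
          ring) (K := β)
        (by
          rw [hcen1, hnb', hRZ, hbβ]
          push_cast
          linarith)
        (by
          rw [hcen1, hnb', hRZ, e2, hbβ]
          push_cast
          linarith)
      exact ⟨A, M + 1, by omega, hAc, hineq, Or.inl le_rfl⟩

end Pool.Agent.Lib.MPa7239a.RH
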