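import Pool.Agent.Lib.MP_a7239a_co.RH.NUMR
import Pool.Agent.Lib.MP_a7239a_co.RB.GAME

/-!
# Groups of order `M n`, the end game: module A (`10 q M + M ≤ 10 o`)
-/

open Finset

namespace Pool.Agent.Lib.MPa7239a.RH

open Pool.Agent.Lib.MPa7239a.RB

variable {o : ℕ} [NeZero o] {r d : ZMod o → ℕ} {M s n c q L D h θ : ℕ}

namespace EndA

/-- the losses are small -/
theorem loss_small (N : NumR r M s n c q L D) (hq : q < 400) : 990 * ((q + 2) * L) ≤ M := by
  have h1 : (q + 2) * L ≤ 401 * L := Nat.mul_le_mul_right _ (by omega)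
  have h2 := N.hL
  omega

/-- the omitted elements outside the main classes -/
theorem far_of_single (N : NumR r M s n c q L D) (hd : Adm r c d) {i : ℕ} (hi : i ≤ q)
    (h1 : d (i : ZMod o) ≤ 1) (h0 : ∀ j ≤ q, j ≠ i → d (j : ZMod o) = 0) :
    c ≤ far d q 0 + 1 := by
  have h2 := N.omit_sum hd
  have h3 : ∑ j ∈ range (q + 1), d (j : ZMod o) = d (i : ZMod o) := by
    rw [sum_eq_single_of_mem i (mem_range.2 (by omega))]
    intro j hj hne
    exact h0 j (by have := mem_range.1 hj; omega) hne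
  omega

/-- a class outside the main classes without omitted elements -/
theorem far_add (hd : Adm r c d) {v : ZMod o}
    (hv : v ∉ near o q 0) (h0 : d v = 0) : far d q 0 + r v ≤ far r q 0 := by
  unfold far
  have h1 : v ∈ univ \ near o q 0 := mem_sdiff.2 ⟨mem_univ _, hv⟩
  rw [← add_sum_erase _ d h1, ← add_sum_erase _ r h1, h0]
  have h2 : ∑ x ∈ (univ \ near o q 0).erase v, d x ≤ ∑ x ∈ (univ \ near o q 0).erase v, r x :=
    sum_le_sum fun x _ => hd.le x
  omega

/-- an integer close to the main classes and not one of them -/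
theorem not_near (N : NumR r M s n c q L D) {i : ℤ} (h1 : i < 0 ∨ (q : ℤ) < i)
    (h2 : -100 ≤ i) (h3 : i ≤ q + 100) : (i : ZMod o) ∉ near o q 0 := by
  intro h
  rw [near, mem_image] at h
  obtain ⟨j, hj, hji⟩ := h
  rw [mem_Icc] at hj
  refine N.cast_ne (i := j) (j := i) (by omega) ?_ hji
  rw [abs_lt]
  constructor <;> omega

/-- different main classes -/
theorem main_ne (N : NumR r M s n c q L D) {i j : ℕ} (hi : i ≤ q + 1) (hj : j ≤ q + 1)
    (hij : i ≠ j) : (i : ZMod o) ≠ (j : ZMod o) := by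
  have h1 := N.cast_ne (i := i) (j := j) (by exact_mod_cast hij) (by
    rw [abs_lt]
    constructor <;> omega)
  exact_mod_cast h1

/-- the number `P = q (M - c)` and its multiple by `s`; the window -/
theorem window (N : NumR r M s n c q L D) (hs : 2 ≤ s) : ∃ P, P = q * (M - c) ∧
    198 * (s * P) ≤ 100 * M ∧ q * M + D + 2 ≤ o + P + q * L ∧
    (M + 1 ≤ c ∧ P = 0 ∨ c ≤ M ∧ 3 ≤ s) := by
  refine ⟨q * (M - c), rfl, ?_, ?_, ?_⟩
  · have h1 := N.eps
    have h2 : q * s * (M - c) = s * (q * (M - c)) := by ring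
    omega
  · have h1 := N.win
    have h2 : q * M ≤ q * (c + (M - c)) := Nat.mul_le_mul_left _ (by omega)
    rw [Nat.mul_add] at h2
    omega
  · rcases Nat.lt_or_ge M c with hc | hc
    · refine Or.inl ⟨hc, ?_⟩
      rw [Nat.sub_eq_zero_of_le (by omega), Nat.mul_zero]
    · refine Or.inr ⟨hc, ?_⟩
      have h1 := N.three
      omega

/-- the numbers of case A -/
theorem nums (N : NumR r M s n c q L D) (g : Game r (M * s) θ c) (hθ : 1000 * θ ≤ M)
    (hs : 2 ≤ s) (hq1 : 1 ≤ q) (hq : q < 400) (hk : 10 * (q * M) + M ≤ 10 * o) :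
    ∃ W w P, far r q 0 + 2 ≤ w + P + (q + 1) * L ∧
      (∀ i ≤ q, W + w + c ≤ r ((i : ℕ) : ZMod o) + far r q 0) ∧
      (∀ i ≤ q, ∀ j ≤ q, i ≠ j →
        W + w + c + M * s ≤ r ((i : ℕ) : ZMod o) + r ((j : ℕ) : ZMod o) + far r q 0) ∧
      P + (q + 1) * L + θ ≤ W ∧
      (c + 1 ≤ w + P + (q + 1) * L →
        M * s + θ + 2 * P + 2 * ((q + 1) * L) ≤ 2 * (W + c)) := by
  obtain ⟨P, hP, hsP, hwin, hcase⟩ := window N hs
  obtain ⟨w, hw⟩ : ∃ w, o = q * M + w := ⟨o - q * M, by omega⟩
  obtain ⟨s', rfl⟩ : ∃ s', s = s' + 1 := ⟨s - 1, by omega⟩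
  have hn : n = q * (M * (s' + 1)) + s' * w + w := by
    rw [← N.os, hw]
    ring
  have hQ := loss_small N hq
  have hQ1 : (q + 2) * L = (q + 1) * L + L := by ring
  have hQ2 : (q + 1) * L = q * L + L := by ring
  have hm := N.hL
  have hfar := N.far_zero
  have hsP' : (s' + 1) * P = s' * P + P := by ring
  have hkey : P + (q + 1) * L + θ ≤ s' * w := by
    rcases hcase with ⟨hc, hP0⟩ | ⟨hc, hs3⟩
    · have h1 : 1 * w ≤ s' * w := Nat.mul_le_mul_right _ (by omega)
      omega
    · have h1 : 2 * w ≤ s' * w := Nat.mul_le_mul_right _ (by omega)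
      have h2 : 2 * P ≤ s' * P := Nat.mul_le_mul_right _ (by omega)
      omega
  refine ⟨s' * w, w, P, ?_, ?_, ?_, hkey, ?_⟩
  · omega
  · intro i hi
    have h1 := N.one_row g.row_le hi
    omega
  · intro i hi j hj hij
    have h1 := N.two_row g.row_le hi hj hij
    omega
  · intro hc
    have h1 : s' * (c + 1) ≤ s' * (w + P + (q + 1) * L) := Nat.mul_le_mul_left _ hc
    have h2 : s' * (w + P + (q + 1) * L) = s' * w + s' * P + s' * ((q + 1) * L) := by ring
    have h3 : s' * (c + 1) = s' * c + s' := by ring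
    -- `s' c ≥ s' M - s' (M - c)`
    have h4 : s' * M ≤ s' * (c + (M - c)) := Nat.mul_le_mul_left _ (by omega)
    have h5 : s' * (c + (M - c)) = s' * c + s' * (M - c) := by ring
    have h6 : s' * (M - c) ≤ s' * P := by
      rw [hP]
      exact Nat.mul_le_mul_left _ (Nat.le_mul_of_pos_left _ hq1)
    have h7 : M - c ≤ P := by
      rw [hP]
      exact Nat.le_mul_of_pos_left _ hq1
    have h8 : M * (s' + 1) = s' * M + M := by ring
    have h9 : s' * (990 * ((q + 1) * L)) ≤ s' * M := Nat.mul_le_mul_left _ (by omega)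
    have h10 : s' * (990 * ((q + 1) * L)) = 990 * (s' * ((q + 1) * L)) := by ring
    rcases hcase with ⟨hc, hP0⟩ | ⟨hc, hs3⟩
    · subst hP0
      have h11 : 1 * M ≤ s' * M := Nat.mul_le_mul_right _ (by omega)
      omega
    · have h11 : 2 * M ≤ s' * M := Nat.mul_le_mul_right _ (by omega)
      omega

/-- the last step of case A -/
theorem final (N : NumR r M s n c q L D) (g : Game r (M * s) θ c) (hs : 2 ≤ s) (hq1 : 1 ≤ q)
    (hq : q < 400) (h2c : 2 * c ≤ D + 2 * L + 2) : False := by
  obtain ⟨P, hP, hsP, -, hcase⟩ := window N hs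
  obtain ⟨s', rfl⟩ : ∃ s', s = s' + 1 := ⟨s - 1, by omega⟩
  have hn : n = o * s' + o := by
    rw [← N.os]
    ring
  have hQ := loss_small N hq
  have hm := N.hL
  have hfar := N.far_zero
  have hwin := N.win
  have h1 := N.one_row g.row_le (Nat.zero_le q)
  have h2 := g.row_le ((0 : ℕ) : ZMod o)
  have e1 : M * (s' + 1) = M * s' + M := by ring
  have e2 : q * (M * (s' + 1)) = q * (M * s') + q * M := by ring
  -- `(q + 2) c ≤ o + (q + 2) L`
  have h3 : s' * (q * c + 2 * c) ≤ s' * (o + q * L + 2 * L) :=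
    Nat.mul_le_mul_left _ (by omega)
  have e3 : s' * (q * c + 2 * c) = s' * (q * c) + 2 * (s' * c) := by ring
  have e4 : s' * (o + q * L + 2 * L) = o * s' + s' * ((q + 2) * L) := by ring
  have e5 : (q + 2) * L = q * L + 2 * L := by ring
  have h4 : s' * (990 * ((q + 2) * L)) ≤ s' * M := Nat.mul_le_mul_left _ hQ
  have e6 : s' * (990 * ((q + 2) * L)) = 990 * (s' * ((q + 2) * L)) := by ring
  have e7 : s' * M = M * s' := mul_comm _ _
  -- `c ≥ M - (M - c)`
  have h5 : q * M ≤ q * (c + (M - c)) := Nat.mul_le_mul_left _ (by omega)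
  have e8 : q * (c + (M - c)) = q * c + q * (M - c) := by ring
  have h6 : s' * (q * M) ≤ s' * (q * (c + (M - c))) := Nat.mul_le_mul_left _ h5
  have e9 : s' * (q * (c + (M - c))) = s' * (q * c) + s' * (q * (M - c)) := by ring
  have e10 : s' * (q * M) = q * (M * s') := by ring
  have h7 : s' * M ≤ s' * (c + (M - c)) := Nat.mul_le_mul_left _ (by omega)
  have e11 : s' * (c + (M - c)) = s' * c + s' * (M - c) := by ring
  have h8 : s' * (M - c) ≤ s' * P := by
    rw [hP]
    exact Nat.mul_le_mul_left _ (Nat.le_mul_of_pos_left _ hq1)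
  have h9 : M - c ≤ P := by
    rw [hP]
    exact Nat.le_mul_of_pos_left _ hq1
  have e12 : (s' + 1) * P = s' * P + P := by ring
  rw [← hP] at e8 e9
  rcases hcase with ⟨hc, hP0⟩ | ⟨hc, hs3⟩
  · subst hP0
    have h11 : 1 * M ≤ s' * M := Nat.mul_le_mul_right _ (by omega)
    omega
  · have h11 : 2 * M ≤ s' * M := Nat.mul_le_mul_right _ (by omega)
    omega

end EndA

open EndA

/-- A: `x ≥ q + 1/10` -/
theorem end_A (N : NumR r M s n c q L D) (g : Game r (M * s) θ c) (hθ : 1000 * θ ≤ M)
    (hs : 2 ≤ s) (hq1 : 1 ≤ q) (hq : q < 400) (hk : 10 * (q * M) + M ≤ 10 * o) : False := by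
  obtain ⟨W, w, P, hF, hone, htwo, hkey, hfat0⟩ := nums N g hθ hs hq1 hq hk
  have hm := N.hL
  have hcl := N.c_large
  have hrow : ∀ i ≤ q, c + 2 ≤ r ((i : ℕ) : ZMod o) := by
    intro i hi
    have h1 := hone i hi
    omega
  have htwo' : ∀ i ≤ q, ∀ j ≤ q, i ≠ j →
      M * s + c + θ ≤ r ((i : ℕ) : ZMod o) + r ((j : ℕ) : ZMod o) := by
    intro i hi j hj hij
    have h1 := htwo i hi j hj hij
    omega
  -- one omitted element in a main class: no others
  have hsingle : ∀ d, Adm r c d → ∀ i ≤ q, d ((i : ℕ) : ZMod o) = 1 →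
      ∀ j ≤ q, j ≠ i → d ((j : ℕ) : ZMod o) = 0 := by
    intro d hd i hi h1 j hj hji
    by_contra h0
    have h2 := hrow i hi
    have h3 := hrow j hj
    have h4 := htwo' i hi j hj (Ne.symm hji)
    exact g.two hd (main_ne N (by omega) (by omega) (Ne.symm hji)) h1 (by omega) (by omega)
      (by omega) (by omega)
  -- a fat main row
  obtain ⟨p, hp, hfatp⟩ : ∃ p ≤ q, M * s + θ ≤ 2 * r ((p : ℕ) : ZMod o) := by
    have h1 := htwo' 0 (Nat.zero_le _) 1 hq1 (by omega)
    by_cases h2 : M * s + θ ≤ 2 * r ((0 : ℕ) : ZMod o)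
    · exact ⟨0, Nat.zero_le _, h2⟩
    · exact ⟨1, hq1, by omega⟩
  have hcF : c ≤ far r q 0 + 1 := by
    obtain ⟨d, hd, h1⟩ := g.del (p : ZMod o) (by have := hrow p hp; omega)
    have h2 := g.le_one hd hfatp (hrow p hp)
    have h3 := far_of_single N hd hp h2 (hsingle d hd p hp (by omega))
    have h4 := far_mono hd.le q 0
    omega
  have hfat : ∀ i ≤ q, M * s + θ ≤ 2 * r ((i : ℕ) : ZMod o) := by
    intro i hi
    have h1 := hone i hi
    have h2 := hfat0 (by omega)
    omega
  have hfar1 : ∀ i : ℕ, i ≤ q → ∀ v : ZMod o, v ∉ near o q 0 →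
      (∀ d, Adm r c d → d (i : ZMod o) = 1 → (∀ j ≤ q, j ≠ i → d ((j : ℕ) : ZMod o) = 0) →
        d v = 0) → c + r v ≤ far r q 0 + 1 := by
    intro i hi v hv hdv
    obtain ⟨d, hd, h1⟩ := g.del (i : ZMod o) (by have := hrow i hi; omega)
    have h2 := g.le_one hd (hfat i hi) (hrow i hi)
    have h3 := hsingle d hd i hi (by omega)
    have h4 := far_of_single N hd hi h2 h3
    have h5 := far_add hd hv (hdv d hd (by omega) h3)
    omega
  have hnear1 : ((q : ZMod o) + 1) ∉ near o q 0 := by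
    have := not_near N (i := (q : ℤ) + 1) (Or.inr (by omega)) (by omega) (by omega)
    push_cast at this
    exact this
  have hnear2 : (-1 : ZMod o) ∉ near o q 0 := by
    have := not_near N (i := -1) (Or.inl (by omega)) (by omega) (by omega)
    push_cast at this
    exact this
  have hA := hfar1 0 (Nat.zero_le _) _ hnear1 (by
    intro d hd h1 h0
    by_contra hne
    have hne0 : (q : ZMod o) + 1 ≠ ((0 : ℕ) : ZMod o) := by
      have := main_ne N (i := q + 1) (j := 0) le_rfl (by omega) (by omega)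
      push_cast at this ⊢
      exact this
    rcases Nat.lt_or_ge q 2 with hq2 | hq2
    · have hq' : q = 1 := by omega
      subst hq'
      exact g.pair_eq hd (y := ((0 : ℕ) : ZMod o)) (y' := ((1 : ℕ) : ZMod o) + 1)
        (v := ((1 : ℕ) : ZMod o)) (by omega) (by omega) (fun h => absurd h.symm hne0)
        (h0 1 le_rfl (by omega)) (by have := hrow 1 le_rfl; omega) (hfat 1 le_rfl)
        (by push_cast; ring)
    · have h2 := htwo' 1 hq1 q le_rfl (by omega)
      have h3 := hrow 1 hq1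
      have h4 := hrow q le_rfl
      exact g.pair_ne hd (y := ((0 : ℕ) : ZMod o)) (y' := (q : ZMod o) + 1)
        (v := ((1 : ℕ) : ZMod o)) (v' := (q : ZMod o)) (by omega) (by omega)
        (fun h => absurd h.symm hne0) (main_ne N (by omega) (by omega) (by omega))
        (h0 1 hq1 (by omega)) (h0 q le_rfl (by omega)) (by omega) (by omega) (by omega)
        (by push_cast; ring))
  have hB := hfar1 q le_rfl _ hnear2 (by
    intro d hd h1 h0
    by_contra hne
    have hne0 : (q : ZMod o) ≠ -1 := by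
      have := N.cast_ne (i := (q : ℤ)) (j := -1) (by omega) (by
        rw [abs_lt]
        constructor <;> omega)
      push_cast at this
      exact this
    rcases Nat.lt_or_ge q 2 with hq2 | hq2
    · have hq' : q = 1 := by omega
      subst hq'
      exact g.pair_eq hd (y := ((1 : ℕ) : ZMod o)) (y' := -1)
        (v := ((0 : ℕ) : ZMod o)) (by omega) (by omega) (fun h => absurd h hne0)
        (h0 0 (by omega) (by omega)) (by have := hrow 0 (by omega); omega) (hfat 0 (by omega))
        (by push_cast; ring)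
    · have h2 := htwo' 0 (by omega) (q - 1) (by omega) (by omega)
      have h3 := hrow 0 (by omega)
      have h4 := hrow (q - 1) (by omega)
      exact g.pair_ne hd (y := (q : ZMod o)) (y' := -1)
        (v := ((0 : ℕ) : ZMod o)) (v' := ((q - 1 : ℕ) : ZMod o)) (by omega) (by omega)
        (fun h => absurd h hne0) (main_ne N (by omega) (by omega) (by omega))
        (h0 0 (by omega) (by omega)) (h0 (q - 1) (by omega) (by omega)) (by omega) (by omega)
        (by omega) (by rw [Nat.cast_sub (by omega)]; push_cast; ring))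
  have hsplit := N.far_split
  have htwo2 := N.far_two
  exact final N g hs hq1 hq (by omega)

end Pool.Agent.Lib.MPa7239a.RH
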