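import Pool.Agent.Lib.MP_a7239a_co.RB.GAME

/-!
# Two main rows: the window is exact

Row `0` is fat and one of its elements is omitted. Then all elements outside the rows `0` and `1`
(not only the structured ones) fit into the window: their number is at most `o - c`.
-/

set_option autoImplicit false

open Finset

namespace Pool.Agent.Lib.MPa7239a.RH

open Pool.Agent.Lib.MPa7239a.RB

namespace EXW

section
variable {o : ℕ} [NeZero o] {r d : ZMod o → ℕ} {h θ c : ℕ}

/-- the classes different from `0` and `1` -/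
def F (o : ℕ) [NeZero o] : Finset (ZMod o) := univ \ {0, 1}

theorem mem_F {u : ZMod o} : u ∈ F o ↔ u ≠ 0 ∧ u ≠ 1 := by
  simp [F]

theorem sum_split (ho : 1 < o) {α : Type*} [AddCommMonoid α] (f : ZMod o → α) :
    ∑ u, f u = f 0 + f 1 + ∑ u ∈ F o, f u := by
  have h01 : (0 : ZMod o) ≠ 1 := by
    have : Fact (1 < o) := ⟨ho⟩
    exact zero_ne_one
  rw [F, ← sum_pair h01, add_comm]
  exact (sum_sdiff (subset_univ _)).symm

/-- the vector with given far part -/
theorem adm_of (ho : 1 < o) {e : ZMod o → ℕ} {b : ℕ} (he : ∀ u ∈ F o, e u ≤ r u)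
    (hb : b ≤ r 1) (hbc : b + ∑ u ∈ F o, e u ≤ c) (h0 : c ≤ r 0)
    (hs : (b : ZMod o) + ∑ u ∈ F o, e u • u = ∑ u, r u • u) :
    Adm r c (fun u => if u = 0 then c - (b + ∑ u ∈ F o, e u) else if u = 1 then b else e u) := by
  have h01 : (1 : ZMod o) ≠ 0 := by
    have : Fact (1 < o) := ⟨ho⟩
    exact one_ne_zero
  refine ⟨fun u => ?_, ?_, ?_⟩
  · by_cases h1 : u = 0
    · rw [if_pos h1, h1]
      omega
    · by_cases h2 : u = 1
      · rw [if_neg h1, if_pos h2, h2]
        exact hb
      · rw [if_neg h1, if_neg h2]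
        exact he u (mem_F.2 ⟨h1, h2⟩)
  · rw [sum_split ho, if_pos rfl, if_neg h01, if_pos rfl]
    have h1 : ∑ u ∈ F o, (if u = 0 then c - (b + ∑ u ∈ F o, e u) else if u = 1 then b else e u) =
        ∑ u ∈ F o, e u := by
      refine sum_congr rfl fun u hu => ?_
      rw [mem_F] at hu
      rw [if_neg hu.1, if_neg hu.2]
    rw [h1]
    omega
  · rw [← hs, sum_split ho (fun u : ZMod o => (if u = 0 then c - (b + ∑ u ∈ F o, e u) else
      if u = 1 then b else e u) • u), if_pos rfl, if_neg h01, if_pos rfl, smul_zero, zero_add]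
    have h1 : ∑ u ∈ F o, (if u = 0 then c - (b + ∑ u ∈ F o, e u) else if u = 1 then b else e u) • u =
        ∑ u ∈ F o, e u • u := by
      refine sum_congr rfl fun u hu => ?_
      rw [mem_F] at hu
      rw [if_neg hu.1, if_neg hu.2]
    rw [h1, nsmul_eq_mul, mul_one]

/-- every far part leaves at most one element for row `0` -/
theorem Q (g : Game r h θ c) (ho : 1 < o) (hfat : h + θ ≤ 2 * r 0) (hc : c + 2 ≤ r 0)
    {e : ZMod o → ℕ} {b : ℕ} (he : ∀ u ∈ F o, e u ≤ r u) (hb : b ≤ r 1)
    (hs : (b : ZMod o) + ∑ u ∈ F o, e u • u = ∑ u, r u • u) : c ≤ b + ∑ u ∈ F o, e u + 1 := by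
  by_contra hcon
  have h1 := adm_of (c := c) ho he hb (by omega) (by omega) hs
  have h2 := g.le_one h1 hfat hc
  rw [if_pos rfl] at h2
  omega

/-- residues of sums below `2 o` -/
theorem val_add {a b : ℕ} (h : a + b < o) : (((a + b : ℕ) : ZMod o)).val = a + b :=
  ZMod.val_cast_of_lt h

theorem cast_sub_o {V : ℕ} (h : o ≤ V) : (((V - o : ℕ) : ZMod o)) = (V : ZMod o) := by
  rw [Nat.cast_sub h, ZMod.natCast_self, sub_zero]

/-- **The exact window.** -/
theorem exact_window (g : Game r h θ c) (ho : 1 < o) (hfat : h + θ ≤ 2 * r 0) (hc : c + 2 ≤ r 0)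
    (hco : c ≤ o) (hd : Adm r c d) (hd0 : d 0 = 1)
    (h4 : o + 2 * ∑ u ∈ F o, r u < 2 * c) :
    c + ∑ u ∈ F o, r u ≤ o := by
  classical
  -- the numbers
  have hcard : 1 + d 1 + ∑ u ∈ F o, d u = c := by
    have h1 := hd.card
    rw [sum_split ho, hd0] at h1
    exact h1
  have hsum : (d 1 : ZMod o) + ∑ u ∈ F o, d u • u = ∑ u, r u • u := by
    have h1 := hd.sum
    rw [sum_split ho (fun u => d u • u), smul_zero, zero_add, nsmul_eq_mul, mul_one] at h1
    exact h1
  have hd1 : d 1 ≤ r 1 := hd.le 1
  have hdF : ∑ u ∈ F o, d u ≤ ∑ u ∈ F o, r u := sum_le_sum fun u _ => hd.le u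
  obtain ⟨β, hβ⟩ : ∃ β, β = d 1 := ⟨_, rfl⟩
  rw [← hβ] at hcard hsum hd1
  obtain ⟨E, hE⟩ : ∃ E, E = ∑ u ∈ F o, d u := ⟨_, rfl⟩
  rw [← hE] at hcard hdF
  obtain ⟨R, hR⟩ : ∃ R, R = ∑ u ∈ F o, r u := ⟨_, rfl⟩
  rw [← hR] at h4 hdF ⊢
  -- one element more or less
  have hval : ∀ z ∈ F o, 2 ≤ z.val ∧ z.val < o := by
    intro z hz
    rw [mem_F] at hz
    have h1 : z.val < o := ZMod.val_lt z
    refine ⟨?_, h1⟩
    by_contra hlt
    rcases (by omega : z.val = 0 ∨ z.val = 1) with h2 | h2
    · exact hz.1 ((ZMod.val_eq_zero z).1 h2)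
    · apply hz.2
      have h3 := ZMod.natCast_zmod_val z
      rw [h2, Nat.cast_one] at h3
      exact h3.symm
  have hsumF : ∀ z ∈ F o, ∀ e : ZMod o → ℕ, ∑ u ∈ F o, e u =
      e z + ∑ u ∈ (F o).erase z, e u := fun z hz e => (add_sum_erase _ _ hz).symm
  have hsumS : ∀ z ∈ F o, ∀ e : ZMod o → ℕ, ∑ u ∈ F o, e u • u =
      e z • z + ∑ u ∈ (F o).erase z, e u • u :=
    fun z hz e => (add_sum_erase _ (fun u => e u • u) hz).symm
  -- put `z` back
  have hplus : ∀ z ∈ F o, 1 ≤ d z → β + z.val + 1 ≤ o := by
    intro z hz hz1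
    by_contra hcon
    have hv := hval z hz
    set e : ZMod o → ℕ := Function.update d z (d z - 1) with he
    have e1 : e z = d z - 1 := Function.update_self ..
    have e2 : ∀ u, u ≠ z → e u = d u := fun u hu => Function.update_of_ne hu ..
    have e3 : ∑ u ∈ (F o).erase z, e u = ∑ u ∈ (F o).erase z, d u :=
      sum_congr rfl fun u hu => e2 u (mem_erase.1 hu).1
    have e4 : ∑ u ∈ (F o).erase z, e u • u = ∑ u ∈ (F o).erase z, d u • u :=
      sum_congr rfl fun u hu => by rw [e2 u (mem_erase.1 hu).1]
    have h1 := hsumF z hz d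
    have h2 := hsumF z hz e
    have h3 := hsumS z hz d
    have h5 := hsumS z hz e
    rw [e3, e1] at h2
    rw [e4, e1] at h5
    have h6 := Q g ho hfat hc (e := e) (b := β + z.val - o) (fun u _ => by
        by_cases hu : u = z
        · rw [hu, e1]
          have := hd.le z
          omega
        · rw [e2 u hu]
          exact hd.le u) (by omega) (by
        rw [cast_sub_o (by omega), ← hsum, h3, h5]
        push_cast
        rw [ZMod.natCast_zmod_val]
        have h7 : d z • z = (d z - 1) • z + z := by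
          conv_lhs => rw [← Nat.sub_add_cancel hz1]
          rw [succ_nsmul]
        rw [h7]
        abel)
    omega
  -- omit `z`
  have hminus : ∀ z ∈ F o, d z < r z → β < z.val := by
    intro z hz hz1
    by_contra hcon
    have hv := hval z hz
    set e : ZMod o → ℕ := Function.update d z (d z + 1) with he
    have e1 : e z = d z + 1 := Function.update_self ..
    have e2 : ∀ u, u ≠ z → e u = d u := fun u hu => Function.update_of_ne hu ..
    have e3 : ∑ u ∈ (F o).erase z, e u = ∑ u ∈ (F o).erase z, d u :=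
      sum_congr rfl fun u hu => e2 u (mem_erase.1 hu).1
    have e4 : ∑ u ∈ (F o).erase z, e u • u = ∑ u ∈ (F o).erase z, d u • u :=
      sum_congr rfl fun u hu => by rw [e2 u (mem_erase.1 hu).1]
    have h1 := hsumF z hz d
    have h2 := hsumF z hz e
    have h3 := hsumS z hz d
    have h5 := hsumS z hz e
    rw [e3, e1] at h2
    rw [e4, e1] at h5
    have h6 := Q g ho hfat hc (e := e) (b := β - z.val) (fun u _ => by
        by_cases hu : u = z
        · rw [hu, e1]
          omega
        · rw [e2 u hu]
          exact hd.le u) (by omega) (by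
        rw [Nat.cast_sub (by omega), ZMod.natCast_zmod_val, ← hsum, h3, h5, succ_nsmul]
        abel)
    omega
  -- the classes are pure
  have hpure : ∀ z ∈ F o, 1 ≤ d z → d z = r z := by
    intro z hz hz1
    by_contra hne
    have h1 := hplus z hz hz1
    have h2 := hminus z hz (lt_of_le_of_ne (hd.le z) hne)
    omega
  -- the weights
  set a : ZMod o → ℕ := fun z => if 1 ≤ d z then z.val else o - z.val with ha
  have ha1 : ∀ z ∈ F o, 1 ≤ d z → a z = z.val := fun z _ h => if_pos h
  have ha0 : ∀ z ∈ F o, ¬ 1 ≤ d z → a z = o - z.val := fun z _ h => if_neg h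
  have hbound : ∀ z ∈ F o, 1 ≤ r z → β + a z + 1 ≤ o := by
    intro z hz hz1
    by_cases h : 1 ≤ d z
    · rw [ha1 z hz h]
      exact hplus z hz h
    · rw [ha0 z hz h]
      have h1 := hminus z hz (by omega)
      have h2 := hval z hz
      omega
  -- the path
  have hpath : ∀ k : ℕ, ∀ f : ZMod o → ℕ, (∀ z ∈ F o, f z ≤ r z) → ∑ z ∈ F o, f z = k →
      β + ∑ z ∈ F o, f z * a z + 1 ≤ o := by
    intro k
    induction k with
    | zero =>
      intro f hf hk
      have h1 : ∑ z ∈ F o, f z * a z = 0 := by
        refine sum_eq_zero fun z hz => ?_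
        rw [sum_eq_zero_iff.1 hk z hz, zero_mul]
      omega
    | succ k ih =>
      intro f hf hk
      obtain ⟨z, hz, hfz⟩ : ∃ z ∈ F o, 1 ≤ f z := by
        by_contra hno
        push Not at hno
        have : ∑ z ∈ F o, f z = 0 := sum_eq_zero fun z hz => by have := hno z hz; omega
        omega
      set f' : ZMod o → ℕ := Function.update f z (f z - 1) with hf'
      have e1 : f' z = f z - 1 := Function.update_self ..
      have e2 : ∀ u, u ≠ z → f' u = f u := fun u hu => Function.update_of_ne hu ..
      have h1 := ih f' (fun u hu => by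
          by_cases h : u = z
          · rw [h, e1]
            have := hf z hz
            omega
          · rw [e2 u h]
            exact hf u hu) (by
          have e6 : ∑ u ∈ (F o).erase z, f' u = ∑ u ∈ (F o).erase z, f u :=
            sum_congr rfl fun u hu => e2 u (mem_erase.1 hu).1
          rw [hsumF z hz f', e1, e6]
          have := hsumF z hz f
          omega)
      have h2 : ∑ u ∈ F o, f u * a u = ∑ u ∈ F o, f' u * a u + a z := by
        have e5 : ∑ u ∈ (F o).erase z, f' u * a u = ∑ u ∈ (F o).erase z, f u * a u :=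
          sum_congr rfl fun u hu => by rw [e2 u (mem_erase.1 hu).1]
        rw [← add_sum_erase _ (fun u => f u * a u) hz, ← add_sum_erase _ (fun u => f' u * a u) hz,
          e5, e1]
        have h3 : f z * a z = (f z - 1) * a z + a z := by
          conv_lhs => rw [← Nat.sub_add_cancel hfz]
          ring
        omega
      have h3 := hbound z hz (hfz.trans (hf z hz))
      by_contra hcon
      set V := β + ∑ u ∈ F o, f u * a u with hV
      have h5 : o ≤ V := by omega
      -- the vector
      set e : ZMod o → ℕ := fun u => if 1 ≤ d u then r u - f u else f u with he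
      have hele : ∀ u ∈ F o, e u ≤ r u := by
        intro u hu
        rw [he]
        have := hf u hu
        dsimp only
        split_ifs <;> omega
      have hsmul : ∀ u ∈ F o, e u • u + ((f u * a u : ℕ) : ZMod o) = d u • u + f u • (0 : ZMod o) := by
        intro u hu
        have h6 := hf u hu
        have h7 := (hval u hu).2
        by_cases h : 1 ≤ d u
        · have h8 := hpure u hu h
          have h9 : e u = r u - f u := if_pos h
          rw [h9, ha1 u hu h, h8, smul_zero, add_zero, Nat.cast_mul, ZMod.natCast_zmod_val,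
            ← nsmul_eq_mul, ← add_nsmul, Nat.sub_add_cancel h6]
        · have h8 : d u = 0 := by omega
          have h9 : e u = f u := if_neg h
          rw [h9, ha0 u hu h, h8, smul_zero, add_zero, zero_smul, Nat.cast_mul,
            Nat.cast_sub h7.le, ZMod.natCast_self, ZMod.natCast_zmod_val, zero_sub, nsmul_eq_mul]
          ring
      have hes : ((V - o : ℕ) : ZMod o) + ∑ u ∈ F o, e u • u = ∑ u, r u • u := by
        rw [cast_sub_o h5, ← hsum, hV]
        have h6 := sum_congr rfl hsmul
        rw [sum_add_distrib, sum_add_distrib] at h6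
        simp only [smul_zero, sum_const_zero, add_zero] at h6
        rw [← h6]
        push_cast
        ring
      have hE' : ∑ u ∈ F o, e u ≤ R := by
        rw [hR]
        exact sum_le_sum hele
      have h8 := Q g ho hfat hc hele (b := V - o) (by omega) hes
      omega
  have hfin := hpath _ r (fun _ _ => le_rfl) rfl
  have hlow : ∑ z ∈ F o, (r z + d z) ≤ ∑ z ∈ F o, r z * a z := by
    refine sum_le_sum fun z hz => ?_
    have hv := hval z hz
    by_cases h : 1 ≤ d z
    · rw [ha1 z hz h, hpure z hz h]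
      nlinarith
    · rw [ha0 z hz h]
      have h1 : d z = 0 := by omega
      have h2 : r z * 1 ≤ r z * (o - z.val) := Nat.mul_le_mul_left _ (by omega)
      omega
  rw [sum_add_distrib, ← hE, ← hR] at hlow
  omega

end

end EXW

end Pool.Agent.Lib.MPa7239a.RH
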