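import Pool.Agent.Lib.MP_a7239a_co.RH.Defs
import Pool.Agent.Lib.MP_a7239a_co.RH.EXW
import Pool.Agent.Lib.MP_a7239a_co.RB.NUM
import Pool.Agent.Lib.MP_a7239a_co.RG.B1

/-!
# Two main rows, real `t`
-/

set_option autoImplicit false

open Finset

namespace Pool.Agent.Lib.MPa7239a.RH

open Pool.Agent.Lib.MPa7239a.GC
open Pool.Agent.Lib.MPa7239a.RK
open Pool.Agent.Lib.MPa7239a.RB

namespace B1RM

variable {o : ℕ} [NeZero o] {r d : ZMod o → ℕ} {M s n c q L D h θ : ℕ}

theorem near_one (ho : 1 < o) : near o 1 0 = {0, 1} := by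
  rw [near]
  have h1 : Icc (-((0 : ℕ) : ℤ)) (((1 : ℕ) : ℤ) + ((0 : ℕ) : ℤ)) = {0, 1} := by decide
  rw [h1, image_insert, image_singleton]
  simp

theorem far_one (ho : 1 < o) (f : ZMod o → ℕ) : far f 1 0 = ∑ u ∈ EXW.F o, f u := by
  rw [far, near_one ho, EXW.F]

/-- the number of elements -/
theorem total_one (N : NumR r M s n c 1 L D) (ho : 1 < o) : r 0 + r 1 + far r 1 0 = n + c := by
  rw [far_one ho, ← N.total, EXW.sum_split ho]

theorem one_lt (N : NumR r M s n c 1 L D) : 1 < o := by
  have h1 := N.mo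
  have h2 := N.hL
  have h3 := N.e1
  have h4 := N.t100
  by_contra hcon
  have h5 : c ≤ 2 * L + 1 := by omega
  obtain ⟨e, he⟩ : ∃ e, M = c + e := ⟨M - c, by omega⟩
  have h6 : M - c = e := by omega
  rw [h6] at h3
  have h7 : 2 * (100 * M) * e ≤ M * M :=
    (Nat.mul_le_mul_right _ (Nat.mul_le_mul_left _ h4)).trans h3
  have h8 : M * (200 * e) ≤ M * M := by
    calc M * (200 * e) = 2 * (100 * M) * e := by ring
      _ ≤ M * M := h7
  have h9 := Nat.le_of_mul_le_mul_left h8 (by omega)
  omega

theorem c_large (N : NumR r M s n c q L D) : 199 * M ≤ 200 * c := by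
  have h2 := N.hL
  have h3 := N.e1
  have h4 := N.t100
  rcases Nat.le_total M c with h | h
  · omega
  obtain ⟨e, he⟩ : ∃ e, M = c + e := ⟨M - c, by omega⟩
  have h6 : M - c = e := by omega
  rw [h6] at h3
  have h7 : 2 * (100 * M) * e ≤ M * M :=
    (Nat.mul_le_mul_right _ (Nat.mul_le_mul_left _ h4)).trans h3
  have h8 : M * (200 * e) ≤ M * M := by
    calc M * (200 * e) = 2 * (100 * M) * e := by ring
      _ ≤ M * M := h7
  have h9 := Nat.le_of_mul_le_mul_left h8 (by omega)
  omega

/-- `o > M`, row `0` is not smaller than row `1` -/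
theorem B1x_aux (N : NumR r M s n c 1 L D) (g : Game r (M * s) θ c) (hθ : 1000 * θ ≤ M)
    (hs : 2 ≤ s) (hk : 10 * o < 11 * M) (hMo : M < o) (hr : r 1 ≤ r 0) : False := by
  have ho := one_lt N
  have htot := total_one N ho
  have hfar := N.far_mul 0
  simp only [zero_add, one_mul] at hfar
  have hwin := N.win
  have hL := N.hL
  have hcl := c_large N
  obtain ⟨e, he⟩ : ∃ e, o = M + e := ⟨o - M, by omega⟩
  have hn : n = M * s + e * s := by
    rw [← N.os, he]
    ring
  have hes : 2 * e ≤ e * s := by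
    rw [mul_comm 2 e]
    exact Nat.mul_le_mul_left _ hs
  have hMs : 2 * M ≤ M * s := by
    rw [mul_comm 2 M]
    exact Nat.mul_le_mul_left _ hs
  have hfat : M * s + θ ≤ 2 * r 0 := by omega
  have hc2 : c + 2 ≤ r 0 := by omega
  obtain ⟨d, hd, hd1⟩ := g.del 0 (by omega)
  have hd0 : d 0 = 1 := by
    have := g.le_one hd hfat hc2
    omega
  rcases Nat.lt_or_ge o c with hco | hco
  · exact g.zero_row hd hfat (by omega) hc2 (by omega)
  have hex := EXW.exact_window g ho hfat hc2 hco hd hd0 (by
    rw [← far_one ho]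
    omega)
  rw [← far_one ho] at hex
  -- the omitted elements
  have hcard : 1 + d 1 + far d 1 0 = c := by
    have h1 := hd.card
    rw [EXW.sum_split ho, hd0] at h1
    rw [far_one ho]
    exact h1
  have hdr : far d 1 0 ≤ far r 1 0 := by
    rw [far_one ho, far_one ho]
    exact sum_le_sum fun u _ => hd.le u
  have h01 : (0 : ZMod o) ≠ 1 := by
    have : Fact (1 < o) := ⟨ho⟩
    exact zero_ne_one
  have hle0 := g.row_le 0
  have hkey : n + 1 ≤ M * s + far r 1 0 := by
    rcases Nat.lt_or_ge (d 1) (r 1) with h1 | h1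
    · have h2 := g.rule2 d hd 0 1 h01 (by omega) (by omega) (by omega) h1
      have h3 := le_max_right (d 0) (r 0 - d 0)
      have h4 := le_max_right (d 1) (r 1 - d 1)
      omega
    · have h2 := hd.le 1
      omega
  rcases N.big with h | h | h
  · omega
  · omega
  · have h1 : (s + 1) * M = M * s + M := by ring
    omega

end B1RM

section
variable {o : ℕ} [NeZero o] {r d : ZMod o → ℕ} {M s n c q L D h θ : ℕ}

open B1RM

/-- `o > M`: the window is exact (all far elements are counted), and rule 2 -/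
theorem end_B1x (N : NumR r M s n c 1 L D) (g : Game r (M * s) θ c) (hθ : 1000 * θ ≤ M)
    (hs : 2 ≤ s) (hk : 10 * o < 11 * M) (hMo : M < o) : False := by
  rcases Nat.le_total (r 1) (r 0) with hr | hr
  · exact B1x_aux N g hθ hs hk hMo hr
  · -- the mirror image
    have hdvd : o ∣ ∑ u, r u - c := by
      rw [N.total, Nat.add_sub_cancel, ← N.os]
      exact Dvd.intro s rfl
    have hcle : c ≤ ∑ u, r u := by
      rw [N.total]
      omega
    have N' : NumR (fun u => r (1 - u)) M s n c 1 L D := by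
      have hm := far_mirror r 1 (o := o)
      simp only [Nat.cast_one] at hm
      exact
      { os := N.os
        s1 := N.s1
        t100 := N.t100
        total := by
          rw [← N.total]
          exact sum_equiv (Equiv.subLeft (1 : ZMod o)) (fun _ => by simp) fun u _ => by
            rw [Equiv.subLeft_apply]
        e1 := N.e1
        oc := N.oc
        three := N.three
        big := N.big
        win := N.win
        mo := N.mo
        hL := N.hL
        far_mul := fun w => by
          rw [hm]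
          exact N.far_mul w
        far_two := by
          rw [hm, hm]
          exact N.far_two }
    exact B1x_aux N' (g.mirror hdvd hcle 1) hθ hs hk hMo (by simpa using hr)

/-- `o ≤ M`, a fat row: `zero_row` -/
theorem end_B1a (N : NumR r M s n c 1 L D) (g : Game r (M * s) θ c) (hθ : 1000 * θ ≤ M)
    (hk : o ≤ M) {u : ZMod o} (hfat : M * s + θ ≤ 2 * r u) : False := by
  have hwin := N.win
  have hL := N.hL
  have hoc := N.oc hk
  have hos := N.os
  have ht := N.t100
  have hs : 100 ≤ s := by
    by_contra hcon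
    have h1 : o * s ≤ M * 99 := Nat.mul_le_mul hk (by omega)
    omega
  have hMs : M * 100 ≤ M * s := Nat.mul_le_mul_left _ hs
  obtain ⟨d, hd, -⟩ := g.del u (by omega)
  exact g.zero_row hd hfat (by omega) (by omega) hoc

/-- `o ≤ M`, no fat row: `B1_core` -/
theorem end_B1 {G : Type*} [AddCommGroup G] [Fintype G] [DecidableEq G] {o : ℕ} [NeZero o]
    (φ : G →+ ZMod o) (hφ : Function.Surjective φ) {A : Finset G} {M s n c L D θ k : ℕ}
    (N : NumR (cnt φ A) M s n c 1 L D)
    (h4 : ∀ g : G, #{x : G | x + x = g} ≤ k) (hkm : 10000 * k ≤ M) (hker : Nat.card φ.ker = M * s)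
    (hFF : ∀ K : AddSubgroup G, FatFull K θ) (hθ : 1000 * θ ≤ M) (hk : o ≤ M)
    (hfat : ∀ u, 2 * cnt φ A u < M * s + θ) (hdel : Del A n)
    (hlow : ∀ K : AddSubgroup G, K ≠ ⊤ → ∀ x₀ : G, ∀ B ⊆ A, (∀ x ∈ B, x - x₀ ∈ K) →
      1000 * #B ≤ 1000 * n + 992 * M)
    (hno : ¬ Hit A n 0) : False := by
  classical
  have ho1 := one_lt N
  have htot := total_one N ho1
  have hfar := N.far_mul 0
  simp only [zero_add, one_mul] at hfar
  have hwin := N.win
  have hL := N.hL
  have hcl := c_large N
  have hoc := N.oc hk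
  have h0 := hfat 0
  have h1 := hfat 1
  have hAc : #A = n + c := by
    rw [← N.total]
    exact card_eq_sum_card_fiberwise (f := φ) (t := univ) fun _ _ => mem_coe.2 (mem_univ _)
  have hs1 := N.s1
  have hMs : M ≤ M * s := Nat.le_mul_of_pos_right _ hs1
  -- `s` is large
  obtain ⟨e, he⟩ : ∃ e, M = o + e := ⟨M - o, by omega⟩
  have hn : n + e * s = M * s := by
    rw [← N.os, he]
    ring
  obtain ⟨f, hf⟩ : ∃ f, f = M - c := ⟨_, rfl⟩
  have hE1 : 198 * (s * f) ≤ 100 * M := by
    have h2 := N.e1
    rw [← hf, ← N.os] at h2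
    have h3 : 99 * M ≤ 100 * o := by omega
    have h5 : M * (198 * (s * f)) ≤ M * (100 * M) := by
      calc M * (198 * (s * f)) = (99 * M) * (2 * (s * f)) := by ring
        _ ≤ (100 * o) * (2 * (s * f)) := Nat.mul_le_mul_right _ h3
        _ = 100 * (2 * (o * s) * f) := by ring
        _ ≤ 100 * (M * M) := Nat.mul_le_mul_left _ h2
        _ = M * (100 * M) := by ring
    exact Nat.le_of_mul_le_mul_left h5 (by omega)
  have hef : e ≤ f + L := by omega
  have hes : e * s ≤ s * f + L * s := by
    calc e * s ≤ (f + L) * s := Nat.mul_le_mul_right _ hef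
      _ = s * f + L * s := by ring
  have hLs : 400000 * (L * s) + 400000 * s ≤ M * s := by
    calc 400000 * (L * s) + 400000 * s = 400000 * (L + 1) * s := by ring
      _ ≤ M * s := Nat.mul_le_mul_right _ hL
  have hs2 : 100 ≤ s := by
    by_contra hcon
    have h5 : L * s ≤ L * 99 := Nat.mul_le_mul_left _ (by omega)
    omega
  have hMs2 : M * 100 ≤ M * s := Nat.mul_le_mul_left _ hs2
  refine RG.B1_core φ hφ (E := 2 * L) (c := c) (θ := θ) (k := k) h4 ho1 hAc (by omega) (by omega)
    (by omega) (by omega) (by omega) (by omega) (by omega) (by omega) hFF hdel ?_ hno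
  intro K hK x₀ B hB hBK
  have h5 := hlow K hK x₀ B hB hBK
  omega

end

end Pool.Agent.Lib.MPa7239a.RH
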