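import Pool.Agent.Lib.MP_a7239a_co.RB.Defs

/-!
# Groups of order `M n` and exponent `n`, `M` not a divisor of `n`: the numbers of the end game
-/

open Finset

namespace Pool.Agent.Lib.MPa7239a.RH

open Pool.Agent.Lib.MPa7239a.RB

/-- the numbers of the input (real `t = n / M`). Fields `e1`, `oc`, `three`, `big` are what the
modules may use about `c`: either `M + 1 ≤ c`, or `c` is a little smaller than `M` (`n` odd, `n / M`
even) and then `s ≠ 2`. -/
structure NumR {o : ℕ} [NeZero o] (r : ZMod o → ℕ) (M s n c q L D : ℕ) : Prop where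
  os : o * s = n
  s1 : 1 ≤ s
  t100 : 100 * M ≤ n
  total : ∑ u, r u = n + c
  e1 : 2 * n * (M - c) ≤ M * M
  oc : o ≤ M → o + 1 ≤ c
  three : M + 1 ≤ c ∨ s ≠ 2
  big : M + 1 ≤ c ∨ o ≤ M ∨ (s + 1) * M ≤ n
  win : q * c + D + 2 ≤ o + q * L
  mo : c ≤ o + 2 * L
  hL : 400000 * (L + 1) ≤ M
  far_mul : ∀ w : ℕ, (w + 1) * far r q w ≤ D + (w + 1) * L
  far_two : far r q 0 + far r q 1 ≤ D + 2 * L

end Pool.Agent.Lib.MPa7239a.RH
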