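import Pool.Agent.Lib.MP_a7239a_co.RH.Defs
import Pool.Agent.Lib.MP_a7239a_co.RB.INPB

/-!
# From the window to `NumR` (H2, module INPR, helper25)
-/

set_option autoImplicit false

open Finset

namespace Pool.Agent.Lib.MPa7239a.RH

open Pool.Agent.Lib.MPa7239a.RB

namespace InprM

/-- the numbers `e1`, `oc`, `three`, `big` from the lower bound for `c` -/
theorem numbers {M s n c o : ℕ} (hos : o * s = n) (hs1 : 1 ≤ s) (hM : 1 ≤ M)
    (hlow : (n / M + 1) * (M + 1) + n ≤ 2 * (n / M + 1) * c)
    (hpar : M + 1 ≤ c ∨ (Odd n ∧ Even (n / M))) :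
    2 * n * (M - c) ≤ M * M ∧ (o ≤ M → o + 1 ≤ c) ∧ (M + 1 ≤ c ∨ s ≠ 2) ∧
      (M + 1 ≤ c ∨ o ≤ M ∨ (s + 1) * M ≤ n) := by
  obtain ⟨b, hb⟩ : ∃ b, b = n / M := ⟨_, rfl⟩
  rw [← hb] at hlow hpar
  have h1 : n < (b + 1) * M := by
    rw [hb]
    have h2 := Nat.div_add_mod n M
    have h3 := Nat.mod_lt n (show 0 < M by omega)
    have h4 : (n / M + 1) * M = M * (n / M) + M := by ring
    omega
  have h2 : b * M ≤ n := by
    rw [hb]
    exact Nat.div_mul_le_self n M
  -- the parity: `s ≥ b + 1` or `s + 1 ≤ b`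
  have hodd : ∀ k : ℕ, Odd n → Even b → s ≠ b := by
    intro _ hn hbe h
    rw [← h] at hbe
    rw [← hos] at hn
    exact (Nat.not_odd_iff_even.2 hbe) (Nat.odd_mul.1 hn).2
  refine ⟨?_, ?_, ?_, ?_⟩
  · rcases Nat.lt_or_ge c M with hc | hc
    · obtain ⟨y, hy⟩ : ∃ y, c + y = M := ⟨M - c, by omega⟩
      have h3 : M - c = y := by omega
      rw [h3]
      have h4 : 2 * (b + 1) * y ≤ M := by
        have e1 : 2 * (b + 1) * M = 2 * (b + 1) * c + 2 * (b + 1) * y := by
          rw [← hy]
          ring
        have e2 : (b + 1) * (M + 1) = (b + 1) * M + (b + 1) := by ring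
        have e3 : 2 * (b + 1) * M = (b + 1) * M + (b + 1) * M := by ring
        have e4 : (b + 1) * M = b * M + M := by ring
        omega
      calc 2 * n * y ≤ 2 * ((b + 1) * M) * y :=
            Nat.mul_le_mul_right _ (Nat.mul_le_mul_left _ h1.le)
        _ = M * (2 * (b + 1) * y) := by ring
        _ ≤ M * M := Nat.mul_le_mul_left _ h4
    · have h3 : M - c = 0 := by omega
      rw [h3, mul_zero]
      exact Nat.zero_le _
  · intro ho
    rcases hpar with h3 | ⟨h3, h4⟩
    · omega
    · have h5 : b ≤ s := by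
        by_contra hlt
        push Not at hlt
        have h6 : o * s ≤ M * s := Nat.mul_le_mul_right _ ho
        have h7 : M * (s + 1) ≤ M * b := Nat.mul_le_mul_left _ hlt
        have h8 : M * (s + 1) = M * s + M := by ring
        rw [mul_comm b M] at h2
        omega
      have h6 : b + 1 ≤ s := by
        have := hodd 0 h3 h4
        omega
      have h7 : (b + 1) * o ≤ n := by
        rw [← hos, mul_comm]
        exact Nat.mul_le_mul_left _ h6
      have h8 : (b + 1) * (M + 1 + o) ≤ (b + 1) * (2 * c) := by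
        calc (b + 1) * (M + 1 + o) = (b + 1) * (M + 1) + (b + 1) * o := by ring
          _ ≤ (b + 1) * (M + 1) + n := Nat.add_le_add_left h7 _
          _ ≤ 2 * (b + 1) * c := hlow
          _ = (b + 1) * (2 * c) := by ring
      have h9 := Nat.le_of_mul_le_mul_left h8 (by omega)
      omega
  · rcases hpar with h3 | ⟨h3, h4⟩
    · exact Or.inl h3
    · right
      rintro rfl
      rw [← hos] at h3
      exact absurd (Nat.odd_mul.1 h3).2 (by decide)
  · rcases hpar with h3 | ⟨h3, h4⟩
    · exact Or.inl h3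
    · right
      rcases Nat.lt_or_ge M o with h5 | h5
      · right
        have h6 : s * (M + 1) ≤ n := by
          rw [← hos, mul_comm]
          exact Nat.mul_le_mul_right _ h5
        have h7 : s ≤ b := by
          by_contra hlt
          push Not at hlt
          have h8 : (b + 1) * M ≤ s * M := Nat.mul_le_mul_right _ hlt
          have h9 : s * (M + 1) = s * M + s := by ring
          omega
        have h8 : s + 1 ≤ b := by
          have := hodd 0 h3 h4
          omega
        exact le_trans (Nat.mul_le_mul_right _ h8) h2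
      · exact Or.inl h5

end InprM

/-- **INPR**: from the window to the numbers of the end game -/
theorem num_of {G : Type*} [AddCommGroup G] [DecidableEq G] {o : ℕ} [NeZero o]
    (φ : G →+ ZMod o) {A S : Finset G} (z : G → ℤ) {M s n c k t' q L : ℕ}
    (hos : o * s = n) (hs1 : 1 ≤ s) (ht : 100 * M ≤ n) (hA : #A = n + c)
    (hlow : (n / M + 1) * (M + 1) + n ≤ 2 * (n / M + 1) * c)
    (hpar : M + 1 ≤ c ∨ (Odd n ∧ Even (n / M)))
    (hS : S ⊆ A) (hloss : #A ≤ #S + L) (hL : 400000 * (L + 1) ≤ M)
    (hz : ∀ x ∈ S, φ x = (z x : ZMod o)) (hSc : #S = k + t') (hk : k ≤ n) (hmo : c ≤ o + 2 * L)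
    (hwin : t' * q + ∑ x ∈ S.filter (fun x => (q : ℤ) < z x), (z x - q) +
      ∑ x ∈ S.filter (fun x => z x < 0), (0 - z x) + 2 ≤ o) :
    ∃ D, NumR (cnt φ A) M s n c q L D := by
  obtain ⟨n1, n2, n3, n4⟩ := InprM.numbers hos hs1 (by omega) hlow hpar
  rw [add_assoc ((t' : ℤ) * q), ← sum_dist0] at hwin
  obtain ⟨D, hD⟩ := Int.eq_ofNat_of_zero_le
    (sum_nonneg fun x _ => dist0_nonneg q (z x) : 0 ≤ ∑ x ∈ S, dist0 q (z x))
  have hcard : ∀ w, #((A.filter (fun x => φ x ∉ near o q w)) ∩ S) + L ≥
      #(A.filter (fun x => φ x ∉ near o q w)) := by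
    intro w
    have h1 := card_inter_add_card_sdiff (A.filter (fun x => φ x ∉ near o q w)) S
    have h2 : #((A.filter (fun x => φ x ∉ near o q w)) \ S) ≤ #(A \ S) :=
      card_le_card (sdiff_subset_sdiff (filter_subset _ _) (Subset.refl S))
    have h3 := card_sdiff_of_subset hS
    omega
  have hfilt : ∀ w, (A.filter (fun x => φ x ∉ near o q w)) ∩ S =
      S.filter (fun x => φ x ∉ near o q w) := by
    intro w
    ext x
    rw [mem_inter, mem_filter, mem_filter]
    constructor
    · rintro ⟨⟨h1, h2⟩, h3⟩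
      exact ⟨h3, h2⟩
    · rintro ⟨h1, h2⟩
      exact ⟨⟨hS h1, h2⟩, h1⟩
  refine ⟨D, ?_⟩
  constructor
  · exact hos
  · exact hs1
  · exact ht
  · rw [cnt_sum, hA]
  · exact n1
  · exact n2
  · exact n3
  · exact n4
  · -- the window
    rw [hD] at hwin
    have h1 : t' * q + D + 2 ≤ o := by exact_mod_cast hwin
    have h2 : c ≤ t' + L := by omega
    have h3 : q * c ≤ q * (t' + L) := Nat.mul_le_mul_left _ h2
    have h4 : q * (t' + L) = t' * q + q * L := by ring
    omega
  · exact hmo
  · exact hL
  · -- far classes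
    intro w
    rw [far_cnt]
    have h1 : ((w + 1) * #(S.filter (fun x => φ x ∉ near o q w)) : ℤ) ≤ D := by
      rw [← hD]
      calc ((w + 1) * #(S.filter (fun x => φ x ∉ near o q w)) : ℤ)
          = ∑ _x ∈ S.filter (fun x => φ x ∉ near o q w), ((w : ℤ) + 1) := by
            rw [sum_const, nsmul_eq_mul, mul_comm]
        _ ≤ ∑ x ∈ S.filter (fun x => φ x ∉ near o q w), dist0 q (z x) := by
            refine sum_le_sum fun x hx => ?_
            rw [mem_filter] at hx
            apply dist0_ge (o := o)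
            rw [← hz x hx.1]
            exact hx.2
        _ ≤ ∑ x ∈ S, dist0 q (z x) :=
            sum_le_sum_of_subset_of_nonneg (filter_subset _ _) fun x _ _ => dist0_nonneg q (z x)
    have h2 : (w + 1) * #(S.filter (fun x => φ x ∉ near o q w)) ≤ D := by exact_mod_cast h1
    have h3 := hcard w
    rw [hfilt] at h3
    calc (w + 1) * #(A.filter (fun x => φ x ∉ near o q w))
        ≤ (w + 1) * (#(S.filter (fun x => φ x ∉ near o q w)) + L) := Nat.mul_le_mul_left _ h3
      _ = (w + 1) * #(S.filter (fun x => φ x ∉ near o q w)) + (w + 1) * L := by ring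
      _ ≤ _ := by omega
  · -- two distances
    rw [far_cnt, far_cnt]
    have h1 : (#(S.filter (fun x => φ x ∉ near o q 0)) : ℤ) +
        #(S.filter (fun x => φ x ∉ near o q 1)) ≤ D := by
      rw [← hD, card_filter, card_filter, Nat.cast_sum, Nat.cast_sum, ← sum_add_distrib]
      refine sum_le_sum fun x hx => ?_
      have h2 := hz x hx
      by_cases h3 : φ x ∉ near o q 1
      · have h4 := dist0_ge (o := o) (q := q) (w := 1) (a := z x) (by rw [← h2]; exact h3)
        have h5 : φ x ∉ near o q 0 := by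
          intro h6
          apply h3
          rw [near, mem_image] at h6 ⊢
          obtain ⟨i, hi, hi'⟩ := h6
          rw [mem_Icc] at hi
          exact ⟨i, mem_Icc.2 ⟨by omega, by omega⟩, hi'⟩
        rw [if_pos h3, if_pos h5]
        push_cast at h4 ⊢
        omega
      · rw [if_neg h3]
        by_cases h5 : φ x ∉ near o q 0
        · have h4 := dist0_ge (o := o) (q := q) (w := 0) (a := z x) (by rw [← h2]; exact h5)
          rw [if_pos h5]
          push_cast at h4 ⊢
          omega
        · rw [if_neg h5]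
          have := dist0_nonneg q (z x)
          push_cast
          omega
    have h2 : #(S.filter (fun x => φ x ∉ near o q 0)) +
        #(S.filter (fun x => φ x ∉ near o q 1)) ≤ D := by exact_mod_cast h1
    have h3 := hcard 0
    have h4 := hcard 1
    rw [hfilt] at h3 h4
    omega

end Pool.Agent.Lib.MPa7239a.RH
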