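import Pool.Agent.Lib.MP_a7239a_co.RH.NUMR
import Pool.Agent.Lib.MP_a7239a_co.RB.L

/-!
# H2, the end game: many rows (module LR, helper28)

As `RB/L`, with `δ = M - c` (zero if `M ≤ c`).
-/

set_option autoImplicit false

open Finset

namespace Pool.Agent.Lib.MPa7239a.RH

open Pool.Agent.Lib.MPa7239a.RB

namespace ELR

/-! ### Numbers -/

/-- the order is not large -/
theorem o_le {o m s q c L D f₀ f₁ δ : ℤ} (hs : 1 ≤ s) (hq : 0 ≤ q) (hL : 0 ≤ L)
    (hδ : 0 ≤ δ) (hm : 0 ≤ m) (hmc : m ≤ c + δ) (hwin : q * c + D + 2 ≤ o + q * L)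
    (hf : f₀ ≤ D + L) (hf₂ : f₀ + f₁ ≤ D + 2 * L) (hsum : o * s + c ≤ (q + 1) * (m * s) + f₀)
    (ha : s = 1 → f₀ ≤ f₁ + 2 * m) : o ≤ (q + 2) * (m + (L + δ)) := by
  have h0 : 0 ≤ q * (c + δ - m) := mul_nonneg hq (by linarith)
  rcases eq_or_lt_of_le hs with h1 | h1
  · have h2 := ha h1.symm
    subst h1
    rw [mul_one, mul_one] at hsum
    linarith
  · have h2 : (s - 1) * (o - (q + 1) * m) ≤ (q + 1) * (L + δ) := by
      linarith
    have h3 : o - (q + 1) * m ≤ (q + 1) * (L + δ) := by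
      rcases le_or_gt (o - (q + 1) * m) 0 with h4 | h4
      · have h5 : 0 ≤ (q + 1) * (L + δ) := by positivity
        linarith
      · have h5 : 1 * (o - (q + 1) * m) ≤ (s - 1) * (o - (q + 1) * m) :=
          mul_le_mul_of_nonneg_right (by linarith) h4.le
        linarith
    linarith

/-- the deficiency of the main rows -/
theorem def_le {o m s q c L D f₀ δ : ℤ} (hs : 1 ≤ s) (hq : 0 ≤ q) (hm : 0 ≤ m) (hL : 0 ≤ L)
    (hmc : m ≤ c + δ) (hδ : 198 * (q * s * δ) ≤ 100 * m) (hδ1 : 3 * δ ≤ m)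
    (hwin : q * c + D + 2 ≤ o + q * L) (hD : 0 ≤ D)
    (hf : f₀ ≤ D + L) : (q + 1) * (m * s) - (o * s + c - f₀) ≤ s * (m + (q + 1) * L) := by
  have h1 : q * (c - L) * (s - 1) ≤ o * (s - 1) :=
    mul_le_mul_of_nonneg_right (by linarith) (by linarith)
  have h2 : q * (m - δ - L) * (s - 1) ≤ q * (c - L) * (s - 1) :=
    mul_le_mul_of_nonneg_right (mul_le_mul_of_nonneg_left (by linarith) hq) (by linarith)
  have h3 : (q + 1) * (m - δ) ≤ (q + 1) * c :=
    mul_le_mul_of_nonneg_left (by linarith) (by linarith)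
  have h4 : 0 ≤ L * (s - 1) := mul_nonneg hL (by linarith)
  linarith

/-- the number of omitted elements -/
theorem c_le {o m q c L D : ℤ} (hq : 400 ≤ q) (hL0 : 0 ≤ L) (hD : 0 ≤ D)
    (hL : 400000 * (L + 1) ≤ m) (hwin : q * c + D + 2 ≤ o + q * L)
    (ho : m + 1 ≤ c → o ≤ (q + 2) * (m + L)) : 50 * c ≤ 51 * m := by
  rcases le_or_gt c m with h | h
  · linarith
  · exact EL.c_le hq hL0 hD hL hwin (ho (by linarith))

/-- not all the other omitted elements are far -/
theorem far_lt {o m q c L D w f δ : ℤ} (hq : 400 ≤ q) (hL0 : 0 ≤ L)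
    (hw : 3 * q ≤ 10 * (w + 1)) (hL : 400000 * (L + 1) ≤ m) (hmc : m ≤ c + δ)
    (hc : 199 * m ≤ 200 * c) (hδ : 198 * (q * δ) ≤ 100 * m) (hδ1 : 200 * δ ≤ m)
    (hwin : q * c + D + 2 ≤ o + q * L)
    (ho : o ≤ (q + 2) * (m + (L + δ))) (hf : (w + 1) * f ≤ D + (w + 1) * L) (hcf : c ≤ 1 + f) :
    False := by
  have h1 : (w + 1) * (c - 1) ≤ (w + 1) * f := mul_le_mul_of_nonneg_left (by linarith)
    (by linarith)
  have h2 : q * m ≤ q * (c + δ) := mul_le_mul_of_nonneg_left hmc (by linarith)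
  have h3 : D ≤ 2 * m + (2 * q + 2) * L + (2 * q + 2) * δ := by linarith
  have h4 : (w + 1) * (c - 1 - L) ≤ D := by linarith
  have h5 : 3 * q * (c - 1 - L) ≤ 10 * (w + 1) * (c - 1 - L) :=
    mul_le_mul_of_nonneg_right hw (by linarith)
  have h6 : q * (400000 * (L + 1)) ≤ q * m := mul_le_mul_of_nonneg_left hL (by linarith)
  have h7 : 400 * m ≤ q * m := mul_le_mul_of_nonneg_right hq (by linarith)
  have h8 : q * (199 * m) ≤ q * (200 * c) := mul_le_mul_of_nonneg_left hc (by linarith)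
  linarith

end ELR

theorem end_L {o : ℕ} [NeZero o] {r : ZMod o → ℕ} {M s n c q L D θ : ℕ}
    (N : NumR r M s n c q L D) (g : Game r (M * s) θ c) (hθ : 1000 * θ ≤ M)
    (hq : 400 ≤ q) : False := by
  classical
  have hL := N.hL
  have hcl := N.c_large
  have heps := N.eps
  have hs := N.s1
  have hwin := N.win
  have hf0 := N.far_zero
  have hf2 := N.far_two
  have hol := N.o_large
  have hsum := N.main_sum
  have hos := N.os
  have hh : M ≤ M * s := Nat.le_mul_of_pos_right M hs
  obtain ⟨δ, hδ⟩ : ∃ δ, δ = M - c := ⟨_, rfl⟩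
  rw [← hδ] at heps
  have hmc : M ≤ c + δ := by omega
  have hδ1 : 200 * δ ≤ M := by omega
  have hrow : ∑ i ∈ range (q + 1), r (i : ZMod o) ≤ (q + 1) * (M * s) := by
    refine (sum_le_card_nsmul _ _ (M * s) fun i _ => g.row_le _).trans ?_
    rw [card_range, smul_eq_mul]
  have hmcz : (M : ℤ) ≤ c + δ := by exact_mod_cast hmc
  have hδz : (198 : ℤ) * (q * s * δ) ≤ 100 * M := by exact_mod_cast heps
  have hδ1z : (200 : ℤ) * δ ≤ M := by exact_mod_cast hδ1
  -- the order
  have ho : (o : ℤ) ≤ (q + 2) * (M + (L + δ)) := by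
    refine ELR.o_le (o := o) (m := M) (s := s) (q := q) (c := c) (L := L) (D := D) (δ := δ)
      (f₀ := far r q 0) (f₁ := far r q 1) (by exact_mod_cast hs) (by positivity) (by positivity)
      (by positivity) (by positivity) hmcz (by exact_mod_cast hwin)
      (by exact_mod_cast hf0) (by exact_mod_cast hf2) ?_ ?_
    · have h1 : o * s + c ≤ (q + 1) * (M * s) + far r q 0 := by
        rw [hos]
        omega
      exact_mod_cast h1
    · intro h1
      have h2 : s = 1 := by exact_mod_cast h1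
      have h3 := N.far_split
      have h4 := g.row_le (-1)
      have h5 := g.row_le ((q : ZMod o) + 1)
      rw [h2, mul_one] at h4 h5
      have h6 : far r q 0 ≤ far r q 1 + 2 * M := by omega
      exact_mod_cast h6
  have hqz : (400 : ℤ) ≤ q := by exact_mod_cast hq
  have hLz : (400000 : ℤ) * (L + 1) ≤ M := by exact_mod_cast hL
  have hwinz : (q : ℤ) * c + D + 2 ≤ o + q * L := by exact_mod_cast hwin
  -- the number of omitted elements
  have hc : 50 * c ≤ 51 * M := by
    have h1 := ELR.c_le (o := o) (m := M) (q := q) (c := c) (L := L) (D := D) hqz (by positivity)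
      (by positivity) hLz hwinz (fun h => by
        have h2 : M + 1 ≤ c := by exact_mod_cast h
        have h3 : δ = 0 := by omega
        rw [h3, Nat.cast_zero, add_zero] at ho
        exact ho)
    exact_mod_cast h1
  -- the bad rows
  have hbad : 80 * #(EL.bad r (M * s) q) ≤ q := by
    have h1 := EL.card_bad (q := q) g.row_le
    have h2 := ELR.def_le (o := o) (m := M) (s := s) (q := q) (c := c) (L := L) (D := D)
      (δ := δ) (f₀ := far r q 0) (by exact_mod_cast hs) (by positivity) (by positivity)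
      (by positivity) hmcz hδz (by linarith) hwinz (by positivity)
      (by exact_mod_cast hf0)
    have h3 : (#(EL.bad r (M * s) q) : ℤ) * (M * s) + 4 * (o * s + c - far r q 0) ≤
        4 * ((q + 1) * (M * s)) := by
      have h4 : ((∑ i ∈ range (q + 1), r (i : ZMod o) : ℕ) : ℤ) = o * s + c - far r q 0 := by
        rw [← hos] at hsum
        have h5 : ((∑ i ∈ range (q + 1), r (i : ZMod o) : ℕ) : ℤ) + (far r q 0 : ℕ) =
          o * s + c := by exact_mod_cast hsum
        linarith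
      rw [← h4]
      exact_mod_cast h1
    have h4 := EL.bad_le (m := M) (s := s) (q := q) (L := L) (β := #(EL.bad r (M * s) q))
      (by exact_mod_cast hs) hqz (by exact_mod_cast (show 0 < M by omega)) hLz (by linarith)
    exact_mod_cast h4
  -- a good row in the middle
  obtain ⟨z₁, hz₁, hz₂, hz₃⟩ : ∃ z₁ : ℕ, 9 * q ≤ 20 * z₁ ∧ 20 * z₁ ≤ 11 * q ∧
      z₁ ∉ EL.bad r (M * s) q := by
    by_contra hno
    push Not at hno
    have h1 : Icc (9 * q / 20 + 1) (11 * q / 20) ⊆ EL.bad r (M * s) q := by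
      intro i hi
      rw [mem_Icc] at hi
      exact hno i (by omega) (by omega)
    have h2 := card_le_card h1
    rw [Nat.card_Icc] at h2
    omega
  rw [EL.bad, mem_filter, mem_range, not_and_or, not_lt] at hz₃
  have hz₄ := hz₃.resolve_left (by omega)
  obtain ⟨d, hd, hdz⟩ := g.del (z₁ : ZMod o) (by omega)
  have hU : 80 * #(EL.U r d (M * s) q) ≤ q + 160 := by
    have h1 := EL.card_U (q := q) g hd (by omega) (by omega) (by omega)
    omega
  have hnear : ∀ j : ℤ, -(3 * q / 10 : ℕ) ≤ j → j ≤ q + (3 * q / 10 : ℕ) →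
      1 ≤ d (j : ZMod o) → ((z₁ : ZMod o) = (j : ZMod o) → 2 ≤ d (z₁ : ZMod o)) → False :=
    fun j h1 h2 h3 h4 => EL.no_near g hd (by omega) (by omega) hU hq hz₁ hz₂ hdz h1 h2 h3 h4
  have hdz1 : d (z₁ : ZMod o) ≤ 1 := by
    by_contra h1
    refine hnear (z₁ : ℤ) (by omega) (by omega) ?_ fun _ => by omega
    rw [Int.cast_natCast]
    omega
  -- the others are far
  have hcf : c ≤ 1 + far d q (3 * q / 10) := by
    have h1 := sum_near_add_far d q (3 * q / 10)
    rw [hd.card] at h1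
    have h2 : ∑ u ∈ near o q (3 * q / 10), d u ≤
        ∑ u ∈ near o q (3 * q / 10), if u = (z₁ : ZMod o) then 1 else 0 := by
      refine sum_le_sum fun u hu => ?_
      split_ifs with h3
      · rw [h3]
        exact hdz1
      · rw [near, mem_image] at hu
        obtain ⟨j, hj, rfl⟩ := hu
        rw [mem_Icc] at hj
        by_contra h4
        exact hnear j hj.1 hj.2 (by omega) fun h5 => absurd h5.symm h3
    have h3 : ∑ u ∈ near o q (3 * q / 10), (if u = (z₁ : ZMod o) then 1 else 0) ≤ 1 := by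
      rw [sum_ite_eq']
      split_ifs <;> omega
    omega
  have hfar := far_mono hd.le q (3 * q / 10)
  have hfm := N.far_mul (3 * q / 10)
  have hqδ : 198 * (q * δ) ≤ 100 * M := by
    refine le_trans ?_ heps
    have h1 : q * δ ≤ q * s * δ := Nat.mul_le_mul_right _ (Nat.le_mul_of_pos_right q hs)
    omega
  refine ELR.far_lt (o := o) (m := M) (q := q) (c := c) (L := L) (D := D) (δ := δ)
    (w := (3 * q / 10 : ℕ)) (f := far r q (3 * q / 10)) hqz (by positivity) ?_ hLz
    hmcz (by exact_mod_cast hcl) (by exact_mod_cast hqδ) hδ1z hwinz ho (by exact_mod_cast hfm)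
    (by exact_mod_cast hcf.trans (by omega))
  have h1 : 3 * q ≤ 10 * (3 * q / 10 + 1) := by omega
  exact_mod_cast h1

end Pool.Agent.Lib.MPa7239a.RH
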