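import Pool.Agent.Lib.MP_a7239a_co.RH.NUMR
import Pool.Agent.Lib.MP_a7239a_co.RB.GAME

/-!
# Groups of order `M n` and exponent `n`, the end game: `s = 1`
-/

set_option autoImplicit false

open Finset

namespace Pool.Agent.Lib.MPa7239a.RH

open Pool.Agent.Lib.MPa7239a.RB

variable {o : ℕ} [NeZero o] {r d : ZMod o → ℕ} {M s n c q L D h θ : ℕ}

namespace S1M

/-- the deficiency of the main rows and the far elements -/
theorem deficiency (N : NumR r M 1 n c q L D) (hq : q < 400) :
    1000 * ((q + 1) * M) + 1000 * far r q 1 + 2000 * L ≤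
      1000 * ∑ i ∈ range (q + 1), r (i : ZMod o) + 513 * M := by
  have hL := N.hL
  have ht := N.t100
  have hwin := N.win
  have hos := N.os
  have h2 := N.far_two
  have hmain := N.main_sum
  have he := N.e1
  have hcl := N.c_large
  -- `Σ` of the deficiency
  have hkey : (q + 1) * M + far r q 1 + (q + 1) * c + 2 ≤
      ∑ i ∈ range (q + 1), r (i : ZMod o) + (q + 1) * M + (q + 2) * L := by
    have h3 : (q + 1) * c = q * c + c := by ring
    have h4 : (q + 2) * L = q * L + 2 * L := by ring
    omega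
  have hqL : (q + 2) * L ≤ 401 * L := Nat.mul_le_mul_right _ (by omega)
  -- `(q + 1) (M - c)`
  have hqm : 1000 * ((q + 1) * (M - c)) ≤ 509 * M := by
    have hM : 0 < M := by omega
    have h5 : q * c ≤ n + q * L := by omega
    have h6 : q * (199 * M) ≤ q * (200 * c) := Nat.mul_le_mul_left _ hcl
    have h7 : q * (400000 * L) ≤ q * M := Nat.mul_le_mul_left _ (by omega)
    have h8 : q * (199 * M) = 199 * (q * M) := by ring
    have h9 : q * (200 * c) = 200 * (q * c) := by ring
    have h10 : q * (400000 * L) = 400000 * (q * L) := by ring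
    have h11 : (q + 1) * M = q * M + M := by ring
    have h12 : 1000 * ((q + 1) * M) ≤ 1018 * n := by omega
    have h13 : 1000 * ((q + 1) * M) * (M - c) ≤ 1018 * n * (M - c) :=
      Nat.mul_le_mul_right _ h12
    have h14 : 1018 * n * (M - c) = 509 * (2 * n * (M - c)) := by ring
    have h15 : 1000 * ((q + 1) * M) * (M - c) = M * (1000 * ((q + 1) * (M - c))) := by ring
    have h16 : M * (1000 * ((q + 1) * (M - c))) ≤ M * (509 * M) := by
      calc M * (1000 * ((q + 1) * (M - c))) ≤ 509 * (2 * n * (M - c)) := by omega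
        _ ≤ 509 * (M * M) := Nat.mul_le_mul_left _ he
        _ = M * (509 * M) := by ring
    exact Nat.le_of_mul_le_mul_left h16 hM
  have h17 : (q + 1) * M ≤ (q + 1) * c + (q + 1) * (M - c) := by
    rw [← mul_add]
    exact Nat.mul_le_mul_left _ (by omega)
  omega

/-- `c` is at most a little more than `M` -/
theorem c_high (N : NumR r M 1 n c q L D) (hr : ∀ u, r u ≤ M * 1) : c ≤ M + 2 * L := by
  by_contra hcon
  have hwin := N.win
  have hos := N.os
  have h2 := N.far_two
  have hmain := N.main_sum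
  have h3 : ∑ i ∈ range (q + 1), r (i : ZMod o) ≤ #(range (q + 1)) • (M * 1) :=
    sum_le_card_nsmul _ _ _ fun x _ => hr _
  rw [card_range, smul_eq_mul, mul_one] at h3
  have h4 : (q + 1) * (M + 2 * L) ≤ (q + 1) * c := Nat.mul_le_mul_left _ (by omega)
  have h5 : (q + 1) * (M + 2 * L) = (q + 1) * M + 2 * (q * L) + 2 * L := by ring
  have h6 : (q + 1) * c = q * c + c := by ring
  omega

end S1M

open S1M

/-- S1: `s = 1`. -/
theorem end_S1 (N : NumR r M 1 n c q L D) (g : Game r (M * 1) θ c) (hθ : 1000 * θ ≤ M)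
    (hq : q < 400) : False := by
  have hL := N.hL
  have ht := N.t100
  have hos := N.os
  have hmain := N.main_sum
  have hsp := N.far_split
  have hcl := N.c_large
  have hch := c_high N g.row_le
  have hdef := deficiency N hq
  have hr1 := g.row_le (-1)
  have hr2 := g.row_le ((q : ZMod o) + 1)
  -- the number of main rows
  have hq97 : 97 ≤ q := by
    by_contra hcon
    have h3 : ∑ i ∈ range (q + 1), r (i : ZMod o) ≤ #(range (q + 1)) • (M * 1) :=
      sum_le_card_nsmul _ _ _ fun x _ => g.row_le _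
    rw [card_range, smul_eq_mul, mul_one] at h3
    have h4 : (q + 1) * M ≤ 97 * M := Nat.mul_le_mul_right _ (by omega)
    omega
  -- two rows
  have htwo : ∀ i j : ℕ, i ≤ q → j ≤ q → i ≠ j →
      1487 * M ≤ 1000 * (r (i : ZMod o) + r (j : ZMod o)) := by
    intro i j hi hj hij
    have h1 := N.two_row (h := M * 1) g.row_le hi hj hij
    have h2 : (q + 1) * M = q * M + M := by ring
    rw [mul_one] at h1
    omega
  have hne : ∀ i j : ℤ, -1 ≤ i → i ≤ q + 1 → -1 ≤ j → j ≤ q + 1 → i ≠ j →
      (i : ZMod o) ≠ (j : ZMod o) := by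
    intro i j hi hi' hj hj' hij
    refine N.cast_ne hij ?_
    rw [abs_lt]
    constructor <;> omega
  have hnat : ∀ i j : ℕ, i ≤ q → j ≤ q → i ≠ j → (i : ZMod o) ≠ (j : ZMod o) := by
    intro i j hi hj hij
    have := hne (i : ℤ) (j : ℤ) (by omega) (by omega) (by omega) (by omega)
      (by exact_mod_cast hij)
    simpa using this
  -- a fat row in the middle
  obtain ⟨i, hi10, hi11, hri⟩ : ∃ i : ℕ, 10 ≤ i ∧ i ≤ 11 ∧ 1487 * M ≤ 2000 * r (i : ZMod o) := by
    have h1 := htwo 10 11 (by omega) (by omega) (by omega)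
    rcases Nat.lt_or_ge (r ((10 : ℕ) : ZMod o)) (r ((11 : ℕ) : ZMod o)) with h2 | h2
    · exact ⟨11, by omega, by omega, by omega⟩
    · exact ⟨10, by omega, by omega, by omega⟩
  obtain ⟨i', rfl⟩ : ∃ i', i = i' + 1 := ⟨i - 1, by omega⟩
  obtain ⟨d, hd, hdi⟩ := g.del ((i' + 1 : ℕ) : ZMod o) (by omega)
  have hri' := g.row_le ((i' + 1 : ℕ) : ZMod o)
  -- the omitted elements of two rows
  have hadd : ∀ j k : ℕ, j ≤ q → k ≤ q → j ≠ k → d (j : ZMod o) + d (k : ZMod o) ≤ c :=
    fun j k hj hk hjk => hd.add_le_card (hnat j k hj hk hjk)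
  rcases Nat.lt_or_ge 1 (d ((i' + 1 : ℕ) : ZMod o)) with hdi2 | hdi2
  · -- row `i` is emptied
    have h1 := g.rule1 d hd _ (by omega) hdi2
    have h2 := hadd i' (i' + 1) (by omega) (by omega) (by omega)
    have h3 := hadd (i' + 2) (i' + 1) (by omega) (by omega) (by omega)
    have h4 := htwo i' (i' + 1) (by omega) (by omega) (by omega)
    have h5 := htwo (i' + 2) (i' + 1) (by omega) (by omega) (by omega)
    refine g.pair_dec hd (y := ((i' + 1 : ℕ) : ZMod o)) (v := (i' : ZMod o))
      (v' := ((i' + 2 : ℕ) : ZMod o)) (by omega) (by omega) (by omega)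
      (hnat _ _ (by omega) (by omega) (by omega)) (hnat _ _ (by omega) (by omega) (by omega))
      (by omega) (by omega)
      (fun h => absurd h (hnat _ _ (by omega) (by omega) (by omega))) ?_
    push_cast
    ring
  have hdi1 : d ((i' + 1 : ℕ) : ZMod o) = 1 := by omega
  -- the other rows are complete or emptied
  have hother : ∀ j : ℕ, j ≤ q → j ≠ i' + 1 → d (j : ZMod o) = 0 ∨
      d (j : ZMod o) = r (j : ZMod o) := by
    intro j hj hji
    by_contra hcon
    push Not at hcon
    have h1 := hd.le (j : ZMod o)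
    have h2 := htwo j (i' + 1) hj (by omega) hji
    have h3 := g.rule2 d hd _ _ (hnat (i' + 1) j (by omega) hj (Ne.symm hji)) (by omega)
      (by omega) (by omega) (by omega)
    have h4 := le_max_right (d ((i' + 1 : ℕ) : ZMod o))
      (r ((i' + 1 : ℕ) : ZMod o) - d ((i' + 1 : ℕ) : ZMod o))
    have h5 := le_max_right (d (j : ZMod o)) (r (j : ZMod o) - d (j : ZMod o))
    have h6 := le_max_left (d (j : ZMod o)) (r (j : ZMod o) - d (j : ZMod o))
    omega
  have hzero : ∀ w : ℕ, w ≤ q → w ≠ i' + 1 → d (w : ZMod o) = r (w : ZMod o) →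
      ∀ j : ℕ, j ≤ q → j ≠ i' + 1 → j ≠ w → d (j : ZMod o) = 0 := by
    intro w hw hwi hdw j hj hji hjw
    refine (hother j hj hji).resolve_right fun h => ?_
    have h1 := hadd j w hj hw hjw
    have h2 := htwo j w hj hw hjw
    omega
  have hpos : ∀ w : ℕ, w ≤ q → 1 ≤ r (w : ZMod o) := by
    intro w hw
    have h3 := g.row_le ((0 : ℕ) : ZMod o)
    rcases Nat.eq_zero_or_pos w with rfl | h0
    · have h1 := htwo 0 1 (by omega) (by omega) (by omega)
      have h2 := g.row_le ((1 : ℕ) : ZMod o)
      omega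
    · have h1 := htwo w 0 hw (by omega) (by omega)
      omega
  -- two complete rows
  have hgo : ∀ (w v v' : ℤ), w ≠ (i' : ℤ) + 1 → 1 ≤ d (w : ZMod o) →
      -1 ≤ w → w ≤ q + 1 → 0 ≤ v → v ≤ q → 0 ≤ v' → v' ≤ q → v ≠ v' →
      d (v : ZMod o) = 0 → d (v' : ZMod o) = 0 → w + (i' + 1) = v + v' → False := by
    intro w v v' hwi hdw hw hw' hv hvq hv' hvq' hvv h1 h2 hs
    obtain ⟨a, rfl⟩ := Int.eq_ofNat_of_zero_le hv
    obtain ⟨b, rfl⟩ := Int.eq_ofNat_of_zero_le hv'
    rw [Int.cast_natCast] at h1 h2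
    have h3 := htwo a b (by omega) (by omega) (by omega)
    have h4 := g.row_le (a : ZMod o)
    have h5 := g.row_le (b : ZMod o)
    refine g.pair_ne hd (y := (w : ZMod o)) (y' := ((i' + 1 : ℕ) : ZMod o))
      (v := (a : ZMod o)) (v' := (b : ZMod o)) hdw (by omega) (fun h => ?_)
      (hnat a b (by omega) (by omega) (by omega)) h1 h2 (by omega) (by omega) (by omega) ?_
    · exfalso
      refine hne w ((i' : ℤ) + 1) hw hw' (by omega) (by omega) hwi ?_
      rw [h]
      push_cast
      rfl
    · have h6 : ((w + (i' + 1) : ℤ) : ZMod o) = (((a : ℤ) + (b : ℤ) : ℤ) : ZMod o) := by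
        exact congrArg _ hs
      push_cast at h6 ⊢
      exact h6
  have hall : ∀ j : ℕ, j ≤ q → j ≠ i' + 1 → d (j : ZMod o) = 0 := by
    intro w hw hwi
    refine (hother w hw hwi).resolve_right fun hdw => ?_
    have hz := hzero w hw hwi hdw
    have hp := hpos w hw
    have hcast : ∀ (a : ℕ) (z : ℤ), z = a → d (a : ZMod o) = 0 → d (z : ZMod o) = 0 := by
      intro a z hz h
      rw [hz, Int.cast_natCast]
      exact h
    have hdw' : 1 ≤ d (((w : ℤ)) : ZMod o) := by
      rw [Int.cast_natCast]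
      omega
    rcases Nat.lt_trichotomy w (i' + 1) with h | h | h
    · rcases Nat.eq_zero_or_pos w with rfl | h0
      · exact hgo ((0 : ℕ) : ℤ) 1 (i' : ℤ) (by omega) hdw' (by omega) (by omega) (by omega)
          (by omega) (by omega) (by omega) (by omega)
          (hcast 1 1 (by simp) (hz 1 (by omega) (by omega) (by omega)))
          (hcast i' i' rfl (hz i' (by omega) (by omega) (by omega))) (by push_cast; ring)
      · obtain ⟨w', rfl⟩ : ∃ w', w = w' + 1 := ⟨w - 1, by omega⟩
        exact hgo ((w' + 1 : ℕ) : ℤ) (w' : ℤ) ((i' + 2 : ℕ) : ℤ) (by omega) hdw' (by omega)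
          (by omega) (by omega) (by omega) (by omega) (by omega) (by omega)
          (hcast w' w' rfl (hz w' (by omega) (by omega) (by omega)))
          (hcast (i' + 2) ((i' + 2 : ℕ) : ℤ) rfl (hz (i' + 2) (by omega) (by omega) (by omega)))
          (by push_cast; ring)
    · exact hwi h
    · rcases Nat.lt_or_ge w q with h0 | h0
      · exact hgo (w : ℤ) (i' : ℤ) ((w + 1 : ℕ) : ℤ) (by omega) hdw' (by omega)
          (by omega) (by omega) (by omega) (by omega) (by omega) (by omega)
          (hcast i' i' rfl (hz i' (by omega) (by omega) (by omega)))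
          (hcast (w + 1) ((w + 1 : ℕ) : ℤ) rfl (hz (w + 1) (by omega) (by omega) (by omega)))
          (by push_cast; ring)
      · obtain ⟨w', rfl⟩ : ∃ w', w = w' + 1 := ⟨w - 1, by omega⟩
        exact hgo ((w' + 1 : ℕ) : ℤ) ((i' + 2 : ℕ) : ℤ) (w' : ℤ) (by omega) hdw' (by omega)
          (by omega) (by omega) (by omega) (by omega) (by omega) (by omega)
          (hcast (i' + 2) ((i' + 2 : ℕ) : ℤ) rfl (hz (i' + 2) (by omega) (by omega) (by omega)))
          (hcast w' w' rfl (hz w' (by omega) (by omega) (by omega)))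
          (by push_cast; ring)
  -- the far omitted elements
  have hsum1 : ∑ j ∈ range (q + 1), d (j : ZMod o) = 1 := by
    rw [sum_eq_single (i' + 1), hdi1]
    · intro j hj hji
      rw [mem_range] at hj
      exact hall j (by omega) hji
    · intro h
      exact absurd (mem_range.2 (by omega)) h
  have h4 := N.omit_sum hd
  have h5 := N.far_split' d
  have h6 := far_mono hd.le q 1
  have hmr : ∑ j ∈ range (q + 1), r (j : ZMod o) ≤ (q + 1) * M := by
    have h3 : ∑ i ∈ range (q + 1), r (i : ZMod o) ≤ #(range (q + 1)) • (M * 1) :=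
      sum_le_card_nsmul _ _ _ fun x _ => g.row_le _
    rwa [card_range, smul_eq_mul, mul_one] at h3
  rcases Nat.eq_zero_or_pos (d (-1)) with h7 | h7
  · have h8 : 1 ≤ d ((q : ZMod o) + 1) := by omega
    refine hgo ((q : ℤ) + 1) (q : ℤ) ((i' + 2 : ℕ) : ℤ) (by omega) ?_ (by omega) (by omega)
      (by omega) (by omega) (by omega) (by omega) (by omega) ?_ ?_ (by push_cast; ring)
    · push_cast
      exact h8
    · rw [Int.cast_natCast]
      exact hall q le_rfl (by omega)
    · rw [Int.cast_natCast]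
      exact hall (i' + 2) (by omega) (by omega)
  · refine hgo (-1) ((0 : ℕ) : ℤ) (i' : ℤ) (by omega) ?_ (by omega) (by omega)
      (by omega) (by omega) (by omega) (by omega) (by omega) ?_ ?_ (by push_cast; ring)
    · push_cast
      exact h7
    · rw [Int.cast_natCast]
      exact hall 0 (by omega) (by omega)
    · rw [Int.cast_natCast]
      exact hall i' (by omega) (by omega)

end Pool.Agent.Lib.MPa7239a.RH
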