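import Pool.Agent.Lib.MP_a7239a_co.RH.NUMR
import Pool.Agent.Lib.MP_a7239a_co.RH.B1R

/-!
# One main row, real `t` (H2, module ZR, helper15)

If `o ≤ M` or `o < c`, rule `zero_row`. Otherwise `M < o`, `M < c ≤ o ≤ M + L`, and all but `5 L`
elements outside row `0` are in one of the rows `1`, `- 1`: the case of two main rows.
-/

set_option autoImplicit false

open Finset

namespace Pool.Agent.Lib.MPa7239a.RH

open Pool.Agent.Lib.MPa7239a.RB

namespace ZRM

section
variable {o : ℕ} [NeZero o] {r d : ZMod o → ℕ} {M s n c q L D h θ : ℕ}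

theorem sum_zero (N : NumR r M s n c 0 L D) (f : ZMod o → ℕ) : f 0 + far f 0 0 = ∑ u, f u := by
  have h1 := N.sum_main f
  rw [zero_add, sum_range_one, Nat.cast_zero] at h1
  exact h1

theorem far_zero_split (N : NumR r M s n c 0 L D) (f : ZMod o → ℕ) :
    far f 0 0 = far f 0 1 + f (-1) + f 1 := by
  have h1 := N.far_split' f
  rw [Nat.cast_zero, zero_add] at h1
  exact h1

theorem far_one_zero (N : NumR r M s n c 0 L D) (ho : 1 < o) (f : ZMod o → ℕ) :
    far f 1 0 = far f 0 1 + f (-1) := by
  have h1 := sum_near_add_far f 1 0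
  have h01 : (0 : ZMod o) ≠ 1 := by
    have : Fact (1 < o) := ⟨ho⟩
    exact zero_ne_one
  rw [B1RM.near_one ho, sum_pair h01] at h1
  have h2 := sum_zero N f
  have h3 := far_zero_split N f
  omega

theorem far_anti (f : ZMod o → ℕ) (q w : ℕ) : far f q w ≤ far f q 0 := by
  refine sum_le_sum_of_subset ?_
  refine sdiff_subset_sdiff (subset_refl _) (image_subset_image ?_)
  intro i hi
  rw [mem_Icc] at hi ⊢
  omega

/-- the second case, one of the rows `1`, `- 1` has no omitted element -/
theorem aux (N : NumR r M s n c 0 L D) (g : Game r (M * s) θ c) (hθ : 1000 * θ ≤ M)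
    (hs : 2 ≤ s) (hL : 4000000 * (L + 1) ≤ M) (hMo : M < o) (hMc : M + 1 ≤ c) (hco : c ≤ o)
    (hd : Adm r c d) (hd0 : d 0 = 1) (hd1 : d (-1) = 0) : False := by
  have ho : 1 < o := by omega
  have h0 := sum_zero N r
  rw [N.total] at h0
  have hrow := g.row_le 0
  have hwin := N.win
  have hfar := N.far_zero
  have htwo := N.far_two
  obtain ⟨e, he⟩ : ∃ e, o = M + e := ⟨o - M, by omega⟩
  have hn : n = M * s + e * s := by
    rw [← N.os, he]
    ring
  have hes : 2 * e ≤ e * s := by
    rw [mul_comm 2 e]
    exact Nat.mul_le_mul_left _ hs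
  have hd2 := sum_zero N d
  rw [hd.card, hd0, far_zero_split N d, hd1] at hd2
  have hr2 := far_zero_split N r
  have hm1 := far_mono hd.le 0 1
  have hm2 := hd.le 1
  have h5 : far r 1 0 ≤ 5 * L := by
    rw [far_one_zero N ho]
    omega
  have N1 : NumR r M s n c 1 (6 * L + 2) 0 :=
    { os := N.os
      s1 := N.s1
      t100 := N.t100
      total := N.total
      e1 := N.e1
      oc := N.oc
      three := N.three
      big := N.big
      win := by omega
      mo := by omega
      hL := by omega
      far_mul := fun w => by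
        rw [zero_add]
        refine Nat.mul_le_mul_left _ ?_
        have := far_anti r 1 w
        omega
      far_two := by
        have := far_anti r 1 1
        omega }
  exact end_B1x N1 g hθ hs (by omega) hMo

end

end ZRM

section
variable {o : ℕ} [NeZero o] {r d : ZMod o → ℕ} {M s n c q L D h θ : ℕ}

open ZRM

/-- **Z**: `q = 0` -/
theorem end_Z (N : NumR r M s n c 0 L D) (g : Game r (M * s) θ c) (hθ : 1000 * θ ≤ M)
    (hs : 2 ≤ s) (hL : 4000000 * (L + 1) ≤ M) : False := by
  have h0 := sum_zero N r
  rw [N.total] at h0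
  have hrow := g.row_le 0
  have hwin := N.win
  have hfar := N.far_zero
  have hcl := N.c_large
  have hmo := N.mo
  have ht := N.t100
  have hos := N.os
  rcases Nat.lt_or_ge M o with hMo | hoM
  · -- `M < o`
    obtain ⟨e, he⟩ : ∃ e, o = M + e := ⟨o - M, by omega⟩
    have hn : n = M * s + e * s := by
      rw [← N.os, he]
      ring
    have hes : 2 * e ≤ e * s := by
      rw [mul_comm 2 e]
      exact Nat.mul_le_mul_left _ hs
    have hMs : 2 * M ≤ M * s := by
      rw [mul_comm 2 M]
      exact Nat.mul_le_mul_left _ hs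
    have hMc : M + 1 ≤ c := by
      rcases N.big with h | h | h
      · exact h
      · omega
      · have h1 : (s + 1) * M = M * s + M := by ring
        omega
    have hfat : M * s + θ ≤ 2 * r 0 := by omega
    have hc2 : c + 2 ≤ r 0 := by omega
    obtain ⟨d, hd, hd1⟩ := g.del 0 (by omega)
    rcases Nat.lt_or_ge o c with hco | hco
    · exact g.zero_row hd hfat (by omega) hc2 (by omega)
    have hd0 : d 0 = 1 := by
      have := g.le_one hd hfat hc2
      omega
    rcases Nat.eq_zero_or_pos (d (-1)) with hm | hm
    · exact aux N g hθ hs hL hMo hMc hco hd hd0 hm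
    rcases Nat.eq_zero_or_pos (d 1) with hp | hp
    · -- the mirror image
      have hdvd : o ∣ ∑ u, r u - c := by
        rw [N.total, Nat.add_sub_cancel, ← N.os]
        exact Dvd.intro s rfl
      have hcle : c ≤ ∑ u, r u := by
        rw [N.total]
        omega
      refine aux N.mirror (g.mirror hdvd hcle _) hθ hs hL hMo hMc hco
        (hd.mirror hdvd hcle _) ?_ ?_
      · simpa using hd0
      · simpa using hp
    · -- both back, two of row `0`
      have h02 : (1 : ZMod o) ≠ -1 := by
        have := N.cast_ne (i := 1) (j := -1) (by norm_num) (by norm_num)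
        simpa using this
      have h01 : (0 : ZMod o) ≠ 1 := by
        have := N.cast_ne (i := 0) (j := 1) (by norm_num) (by norm_num)
        simpa using this
      have h03 : (0 : ZMod o) ≠ -1 := by
        have := N.cast_ne (i := 0) (j := -1) (by norm_num) (by norm_num)
        simpa using this
      have hA := hd.pair (y := 1) (y' := -1) (v := 0) (v' := 0) hp hm (fun h => absurd h h02)
        (by omega) (by omega) (fun _ => by omega) (by rw [add_neg_cancel, add_zero])
      have h3 := g.rule1 _ hA 0 hfat
      simp only [if_neg h01, if_neg h03, if_true, hd0] at h3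
      omega
  · -- `o ≤ M`
    have hoc := N.oc hoM
    have hs100 : 100 ≤ s := by
      by_contra hcon
      have h1 : o * s ≤ M * 99 := Nat.mul_le_mul hoM (by omega)
      omega
    have h1 : 99 * M ≤ 100 * o := by omega
    have h2 : 99 * (M * s) ≤ 100 * n := by
      calc 99 * (M * s) = 99 * M * s := by ring
        _ ≤ 100 * o * s := Nat.mul_le_mul_right _ h1
        _ = 100 * n := by rw [← hos]; ring
    have hMs : M * 100 ≤ M * s := Nat.mul_le_mul_left _ hs100
    obtain ⟨d, hd, -⟩ := g.del 0 (by omega)
    exact g.zero_row (u := 0) hd (by omega) (by omega) (by omega) hoc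

end

end Pool.Agent.Lib.MPa7239a.RH
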