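import Pool.Agent.Lib.MP_a7239a_co.RH.NUMR
import Pool.Agent.Lib.MP_a7239a_co.RH.AR
import Pool.Agent.Lib.MP_a7239a_co.RH.B2R
import Pool.Agent.Lib.MP_a7239a_co.RH.B1R
import Pool.Agent.Lib.MP_a7239a_co.RH.ZR
import Pool.Agent.Lib.MP_a7239a_co.RH.S1R
import Pool.Agent.Lib.MP_a7239a_co.RH.LR
import Pool.Agent.Lib.MP_a7239a_co.RH.INPR
import Pool.Agent.Lib.MP_a7239a_co.RB.RULES

/-!
# The end game for real `t` (H2, module GAMER, helper25)
-/

set_option autoImplicit false

open Finset

namespace Pool.Agent.Lib.MPa7239a.RH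

open Pool.Agent.Lib.MPa7239a.GC
open Pool.Agent.Lib.MPa7239a.RK
open Pool.Agent.Lib.MPa7239a.RB

/-- THE END GAME, real `t` -/
theorem end_game {G : Type*} [AddCommGroup G] [Fintype G] [DecidableEq G] {o : ℕ} [NeZero o]
    (φ : G →+ ZMod o) (hφ : Function.Surjective φ) {A S : Finset G} (z : G → ℤ)
    {M s n c k t' q L θ κ : ℕ}
    (h4 : ∀ g : G, #{x : G | x + x = g} ≤ κ) (hκ : 10000 * κ ≤ M) (hker : Nat.card φ.ker = M * s)
    (hFF : ∀ K : AddSubgroup G, FatFull K θ) (hθ : 1000 * θ ≤ M)
    (hos : o * s = n) (ht : 100 * M ≤ n) (hA : #A = n + c)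
    (hlow' : (n / M + 1) * (M + 1) + n ≤ 2 * (n / M + 1) * c)
    (hpar : M + 1 ≤ c ∨ (Odd n ∧ Even (n / M)))
    (hS : S ⊆ A) (hloss : #A ≤ #S + L) (hL : 4000000 * (L + 1) ≤ M)
    (hz : ∀ x ∈ S, φ x = (z x : ZMod o)) (hSc : #S = k + t') (hk : k ≤ n)
    (hwin : t' * q + ∑ x ∈ S.filter (fun x => (q : ℤ) < z x), (z x - q) +
      ∑ x ∈ S.filter (fun x => z x < 0), (0 - z x) + 2 ≤ o)
    (hrow : ∀ B ⊆ A, (∀ x ∈ B, φ x = 0) → #B < n + L)
    (hlow : ∀ K : AddSubgroup G, K ≠ ⊤ → ∀ x₀ : G, ∀ B ⊆ A, (∀ x ∈ B, x - x₀ ∈ K) →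
      1000 * #B ≤ 1000 * n + 992 * M)
    (hdel : Del A n) : Hit A n 0 := by
  by_contra hno
  have hn1 : 1 ≤ n := by omega
  have hs1 : 1 ≤ s := by
    rcases Nat.eq_zero_or_pos s with h | h
    · rw [h, mul_zero] at hos
      omega
    · exact h
  -- `o` is nearly `c` at least
  have hD1 : (0 : ℤ) ≤ ∑ x ∈ S.filter (fun x => (q : ℤ) < z x), (z x - q) := by
    refine sum_nonneg fun x hx => ?_
    rw [mem_filter] at hx
    omega
  have hD2 : (0 : ℤ) ≤ ∑ x ∈ S.filter (fun x => z x < 0), (0 - z x) := by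
    refine sum_nonneg fun x hx => ?_
    rw [mem_filter] at hx
    omega
  have hmo : c ≤ o + 2 * L := by
    rcases Nat.eq_zero_or_pos q with hq | hq
    · -- row 0
      subst hq
      have h1 := hrow (A.filter (fun x => φ x = 0)) (filter_subset _ _)
        fun x hx => (mem_filter.1 hx).2
      have h2 : (#(S.filter (fun x => z x ≠ 0)) : ℤ) + 2 ≤ o := by
        have h3 : S.filter (fun x => z x ≠ 0) =
            S.filter (fun x => ((0 : ℕ) : ℤ) < z x) ∪ S.filter (fun x => z x < 0) := by
          ext x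
          simp only [mem_filter, mem_union]
          constructor
          · rintro ⟨h, h'⟩
            rcases lt_or_gt_of_ne h' with h'' | h''
            · exact Or.inr ⟨h, h''⟩
            · exact Or.inl ⟨h, by push_cast; exact h''⟩
          · rintro (⟨h, h'⟩ | ⟨h, h'⟩)
            · exact ⟨h, by push_cast at h'; omega⟩
            · exact ⟨h, by omega⟩
        have h5 : (#(S.filter (fun x => ((0 : ℕ) : ℤ) < z x)) : ℤ) ≤
            ∑ x ∈ S.filter (fun x => ((0 : ℕ) : ℤ) < z x), (z x - (0 : ℕ)) := by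
          rw [card_eq_sum_ones, Nat.cast_sum]
          refine sum_le_sum fun x hx => ?_
          rw [mem_filter] at hx
          push_cast at hx ⊢
          omega
        have h6 : (#(S.filter (fun x => z x < 0)) : ℤ) ≤
            ∑ x ∈ S.filter (fun x => z x < 0), (0 - z x) := by
          rw [card_eq_sum_ones, Nat.cast_sum]
          refine sum_le_sum fun x hx => ?_
          rw [mem_filter] at hx
          push_cast
          omega
        have h7 := card_union_le (S.filter (fun x => ((0 : ℕ) : ℤ) < z x))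
          (S.filter (fun x => z x < 0))
        rw [← h3] at h7
        have h8 : (#(S.filter (fun x => z x ≠ 0)) : ℤ) ≤
            #(S.filter (fun x => ((0 : ℕ) : ℤ) < z x)) + #(S.filter (fun x => z x < 0)) := by
          exact_mod_cast h7
        push_cast at hwin h5 h8 ⊢
        linarith
      have h3 : #(S.filter (fun x => z x = 0)) ≤ #(A.filter (fun x => φ x = 0)) := by
        refine card_le_card fun x hx => ?_
        rw [mem_filter] at hx ⊢
        refine ⟨hS hx.1, ?_⟩
        rw [hz x hx.1, hx.2, Int.cast_zero]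
      have h5 := card_filter_add_card_filter_not (s := S) (fun x => z x = 0)
      have h6 : #(S.filter (fun x => ¬ z x = 0)) + 2 ≤ o := by exact_mod_cast h2
      omega
    · have h1 : (t' : ℤ) ≤ t' * q := by
        have : (1 : ℤ) ≤ q := by exact_mod_cast hq
        nlinarith
      have h2 : (t' : ℤ) + 2 ≤ o := by linarith
      omega
  obtain ⟨D, N⟩ := num_of φ z hos hs1 ht hA hlow' hpar hS hloss (by omega) hz hSc hk hmo hwin
  have ho := N.o_large
  have g : Game (cnt φ A) (M * s) θ c :=
    game_of φ hφ (by omega) hA hker (hFF _) hdel hno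
  rcases Nat.lt_or_ge q 400 with hq | hq
  · rcases Nat.lt_or_ge s 2 with hs | hs
    · obtain rfl : s = 1 := by omega
      exact end_S1 N g hθ hq
    · rcases Nat.eq_zero_or_pos q with hq0 | hq0
      · subst hq0
        exact end_Z N g hθ hs hL
      · rcases Nat.lt_or_ge (10 * o) (10 * (q * M) + M) with hk' | hk'
        · rcases Nat.lt_or_ge q 2 with hq2 | hq2
          · obtain rfl : q = 1 := by omega
            rw [one_mul] at hk'
            rcases Nat.lt_or_ge M o with hMo | hMo
            · exact end_B1x N g hθ hs (by omega) hMo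
            · by_cases hfat : ∃ u, M * s + θ ≤ 2 * cnt φ A u
              · obtain ⟨u, hu⟩ := hfat
                exact end_B1a N g hθ hMo hu
              · push Not at hfat
                exact end_B1 φ hφ N h4 hκ hker hFF hθ hMo hfat hdel hlow hno
          · exact end_B2 N g hθ hs hq2 hq hk'
        · exact end_A N g hθ hs hq0 hq hk'
  · exact end_L N g hθ hq

end Pool.Agent.Lib.MPa7239a.RH
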