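import Pool.Agent.Lib.MP_a7239a_co.RS.J2
import Pool.Agent.Lib.MP_a7239a_co.RG.MINK

/-!
# The index is one, without divisibility (module J2R)

For a group of odd order there is no subgroup of index two.
-/

open Finset

namespace Pool.Agent.Lib.MPa7239a.RH

open Pool.Agent.Lib.MPa7239a.GC hiding cs
open Pool.Agent.Lib.MPa7239a.RS (Df Par Amj index_one_of)
open Pool.Agent.Lib.MPa7239a.RS.J2M

/-- **The index is one**, odd order. -/
theorem index_one_odd {G : Type*} [AddCommGroup G] [Finite G] [DecidableEq G]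
    {m n c j o τ loss k t' Z : ℕ} {Γ K H : AddSubgroup G} {e q : G}
    {A S : Finset G} {z : G → ℤ} {u v : ℤ} (hn : 0 < n)
    (h : Amj Γ K H e q A S z m n c j o τ loss k t' Z u v) (hj : 1 ≤ j) (hτ : 100 * m ≤ 101 * τ)
    (hloss : 1000 * loss ≤ m) (hm : 1000 ≤ m)
    (hodd : Odd (m * n)) : j = 1 := by
  classical
  by_contra hj1
  have hj2 : 2 ≤ j := by omega
  obtain ⟨s, hs⟩ := h.on
  have ho : 0 < o := by
    rcases Nat.eq_zero_or_pos o with h0 | h0
    · rw [h0, zero_mul] at hs
      omega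
    · exact h0
  have hs1 : 1 ≤ s := by
    rcases Nat.eq_zero_or_pos s with h0 | h0
    · rw [h0, mul_zero] at hs
      omega
    · exact h0
  -- `h j = m s`
  have hh : Nat.card H * j = m * s := by
    have h1 := h.cardK
    rw [← h.cardH, hs] at h1
    have h2 : o * (Nat.card H * j) = o * (m * s) := by
      calc o * (Nat.card H * j) = Nat.card H * o * j := by ring
        _ = m * (o * s) := h1
        _ = o * (m * s) := by ring
    exact Nat.eq_of_mul_eq_mul_left ho h2
  have hoe : o • e ∈ H := by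
    have h1 : o • (e : G ⧸ H) = 0 := by
      rw [← h.order]
      exact addOrderOf_nsmul_eq_zero _
    rw [← QuotientAddGroup.mk_nsmul] at h1
    exact (QuotientAddGroup.eq_zero_iff _).1 h1
  -- the numbers as integers
  have z1 : (n : ℤ) = o * s := by exact_mod_cast hs
  have z2 : (n : ℤ) ≤ k + loss := by exact_mod_cast h.nk
  have z3 : (k : ℤ) ≤ n := by exact_mod_cast h.kn
  have z4 : (n : ℤ) + τ ≤ k + t' + loss := by
    have h1 := h.hloss
    rw [h.cardS] at h1
    exact_mod_cast h1
  have z9 : 100 * (m : ℤ) ≤ 101 * τ := by exact_mod_cast hτ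
  have z10 : 1000 * (loss : ℤ) ≤ m := by exact_mod_cast hloss
  have z11 : (1000 : ℤ) ≤ m := by exact_mod_cast hm
  have zs : (1 : ℤ) ≤ s := by exact_mod_cast hs1
  have zh : (Nat.card H : ℤ) * j = m * s := by exact_mod_cast hh
  have z8 : 2 * (Nat.card H : ℤ) ≤ m * s := by
    rw [← zh, mul_comm]
    exact mul_le_mul_of_nonneg_left (by exact_mod_cast hj2) (by positivity)
  have hP := dist_nonneg S z u v
  have hcard := card_le S z h.uv
  rw [h.cardS] at hcard
  push_cast at hcard
  have hwin := h.win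
  have hrow : ∀ i : ℤ, (#(RK.row S z i) : ℤ) ≤ Nat.card H := by
    intro i
    exact_mod_cast RK.card_row_le h.lift i
  have hIcc : ∑ i ∈ Icc u v, (#(RK.row S z i) : ℤ) ≤ (v - u + 1) * Nat.card H := by
    refine (sum_le_card_nsmul _ _ (Nat.card H : ℤ) fun i _ => hrow i).trans ?_
    rw [Int.card_Icc, nsmul_eq_mul]
    have h1 : (((v + 1 - u).toNat : ℕ) : ℤ) = v - u + 1 := by
      have := h.uv
      omega
    rw [h1]
  set P : ℤ := ∑ x ∈ S.filter (fun x => v < z x), (z x - v) +
        ∑ x ∈ S.filter (fun x => z x < u), (u - z x) with hPdef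
  have hwin' : (t' : ℤ) * (v - u) + P + 2 ≤ o := by
    rw [hPdef]
    linarith
  have huv := h.uv
  rcases (show v - u = 0 ∨ v - u = 1 ∨ 2 ≤ v - u by omega) with hD | hD | hD
  · -- one row
    have hvu : v = u := by omega
    rw [hD] at hwin' hIcc
    rw [hvu, Icc_self, sum_singleton] at hcard hIcc
    have h1 := num_zero z1 z3 z4 (by linarith) hcard (by linarith) z8 z9 z10 z11 zs
    have h2 := h.row (q + u • e) (RK.row S z u)
      (fun x hx => h.sub (RK.mem_row.1 hx).1) (fun x hx => by
        have h3 := RK.mem_row.1 hx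
        have h4 := h.lift x h3.1
        rw [h3.2] at h4
        rwa [sub_sub] at h4)
    have h3 : (#(RK.row S z u) : ℤ) < n + loss := by exact_mod_cast h2
    linarith
  · -- two rows
    have hvu : v = u + 1 := by omega
    rw [hD] at hwin' hIcc
    rcases Nat.lt_or_ge j 3 with hj3 | hj3
    · -- index two: impossible
      exfalso
      have hj' : j = 2 := by omega
      have h1 := h.cardK
      rw [hj'] at h1
      rw [← h1, Nat.odd_mul] at hodd
      exact absurd hodd.2 (by decide)
    · -- index at least three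
      have z8' : 3 * (Nat.card H : ℤ) ≤ m * s := by
        rw [← zh, mul_comm]
        exact mul_le_mul_of_nonneg_left (by exact_mod_cast hj3) (by positivity)
      exact num_three z1 z3 z4 (by linarith) hcard (by linarith) z8' z9 z10 z11 hP zs
  · -- three rows
    exact num_ge_two z1 z3 z4 hwin' hcard hIcc z8 z9 z10 z11 hP hD zs

/-- **the structure of a set without zero-sum subsets of `n` elements**, without divisibility -/
theorem input_R {G : Type*} [AddCommGroup G] [Fintype G] [DecidableEq G]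
    {m n ℓ M Λ k₀ c τ loss : ℕ} [NeZero n] (hexp : ∀ x : G, n • x = 0)
    (hGc : Fintype.card G ≤ n ^ 2) (hpar : Par m n ℓ M Λ k₀)
    {Γ : AddSubgroup G} (hΓ : Nat.card Γ = m * n)
    (hloss : loss = 2592 * M * ℓ ^ 3) {A : Finset G} (hA : ∀ x ∈ A, x ∈ Γ)
    (hc : #A = n + c) (hτ : τ ≤ c) (hτ₁ : 100 * m ≤ 101 * τ) (hmc : m + 1 ≤ c ∨ Odd (m * n))
    (hcn : c + 3 * loss ≤ n) (hno : ¬ Hit A n 0) :
    ∃ (H : AddSubgroup G) (e q : G)
      (S : Finset G) (z : G → ℤ) (o k t' Z : ℕ) (u v : ℤ),
      Amj Γ Γ H e q A S z m n c 1 o τ loss k t' Z u v := by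
  have hM := hpar.hM
  have hℓ := hpar.hℓ
  have hM₂ := hpar.hM₂
  have hn0 := Nat.pos_of_ne_zero (NeZero.ne n)
  have hℓ1 : 1 ≤ ℓ := by
    rcases Nat.eq_zero_or_pos ℓ with h | h
    · rw [h, pow_zero] at hℓ
      omega
    · exact h
  have h1 : 1 ≤ M * ℓ ^ 3 := Nat.one_le_iff_ne_zero.2 (by positivity)
  have hl : 400000 * loss ≤ m := by
    rw [hloss]
    nlinarith
  have hm : 1000 ≤ m := by nlinarith
  obtain ⟨K, H, e, q, S, z, j, o, k, t', Z, u, v, hj, h⟩ :=
    RG.exists_amj hexp hGc hpar hΓ hloss hA hc hτ (by omega) hcn hno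
  have hj1 : j = 1 := by
    rcases hmc with hmc | hodd
    · exact index_one_of hexp hn0 h hj hτ₁ (by omega) hm (fun h2 _ => by omega) hno
    · exact index_one_odd hn0 h hj hτ₁ (by omega) hm hodd
  subst hj1
  have hK : K = Γ := by
    have h2 : Nat.card K = Nat.card Γ := by
      have := h.cardK
      rw [hΓ, ← this, mul_one]
    exact AddSubgroup.eq_of_le_of_card_ge h.KΓ h2.ge
  subst hK
  exact ⟨H, e, q, S, z, o, k, t', Z, u, v, h⟩

end Pool.Agent.Lib.MPa7239a.RH
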