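import Pool.Agent.Lib.MP_a7239a_co.RH.GAMER
import Pool.Agent.Lib.MP_a7239a_co.RH.J2R
import Pool.Agent.Lib.MP_a7239a_co.RH.LOWR
import Pool.Agent.Lib.MP_a7239a_co.RB.PHI
import Pool.Agent.Lib.MP_a7239a_co.RG.FULL
import Pool.Agent.Lib.MP_a7239a_co.RK.PAR2

/-!
# The upper bound for groups of order `M n` and exponent `n ≥ 100 M` (H2, module MAINR, helper25)
-/

set_option autoImplicit false

open Finset

namespace Pool.Agent.Lib.MPa7239a.RH

open Pool.Agent.Lib.MPa7239a.GC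
open Pool.Agent.Lib.MPa7239a.RK
open Pool.Agent.Lib.MPa7239a.RB
open Pool.Agent.Lib.MPa7239a.RS (Amj Par)

/-- the end game for the structure of Theorem R* -/
theorem false_of_amj {G : Type*} [AddCommGroup G] [Fintype G] [DecidableEq G] {A S : Finset G}
    {H : AddSubgroup G} {e q : G} {z : G → ℤ} {M n c o τ loss k t' Z θ κ : ℕ} {u v : ℤ}
    (h : Amj ⊤ ⊤ H e q A S z M n c 1 o τ loss k t' Z u v) (ht : 100 * M ≤ n)
    (hlow' : (n / M + 1) * (M + 1) + n ≤ 2 * (n / M + 1) * c)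
    (hpar : M + 1 ≤ c ∨ (Odd n ∧ Even (n / M))) (hL : 4000000 * (loss + 1) ≤ M)
    (hτ : 1000 * τ ≤ 992 * M + 1000) (hG : ∀ x : G, n • x = 0)
    (h4 : ∀ g : G, #{x : G | x + x = g} ≤ κ) (hκ : 10000 * κ ≤ M)
    (hFF : ∀ K : AddSubgroup G, FatFull K θ) (hθ : 1000 * θ ≤ M) (hdel : Del A n)
    (hno : ¬ Hit A n 0) : False := by
  classical
  have hn1 : 1 ≤ n := by omega
  have ho0 : 0 < o := by
    rw [← h.order]
    exact addOrderOf_pos _
  have : NeZero o := ⟨by omega⟩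
  obtain ⟨φ, hφ, hker, hφe⟩ := exists_phi h.order fun x => h.gen x (AddSubgroup.mem_top x)
  obtain ⟨s, hs⟩ := h.on
  have hos : o * s = n := hs.symm
  have hφH : ∀ x, φ x = 0 ↔ x ∈ H := by
    intro x
    rw [← AddMonoidHom.mem_ker, hker]
  have hkc : Nat.card φ.ker = M * s := by
    rw [hker]
    have h3 := h.cardH
    have h5 := h.cardΓ
    rw [h5] at h3
    have h6 : o * Nat.card H = o * (M * s) := by
      rw [mul_comm o, h3, ← hos]
      ring
    exact Nat.eq_of_mul_eq_mul_left ho0 h6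
  -- translation
  set x₀ : G := q + u • e with hx₀
  have hφ₀ : ∀ x ∈ S, φ (x - x₀) = ((z x - u : ℤ) : ZMod o) := by
    intro x hx
    have h1 := h.lift _ hx
    have h2 : φ (x - q - z x • e) = 0 := (hφH _).2 h1
    rw [map_sub, map_zsmul, hφe, zsmul_one, sub_eq_zero] at h2
    have h3 : x - x₀ = (x - q) - u • e := by
      rw [hx₀]
      abel
    rw [h3, map_sub, map_zsmul, hφe, zsmul_one, h2]
    push_cast
    ring
  have hsub : Function.Injective (fun x : G => x - x₀) := sub_left_injective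
  set A₂ := A.image (fun x => x - x₀) with hA₂
  set S₂ := S.image (fun x => x - x₀) with hS₂
  set z₂ : G → ℤ := fun y => z (y + x₀) - u with hz₂
  have hz₂' : ∀ x, z₂ (x - x₀) = z x - u := by
    intro x
    rw [hz₂]
    simp only [sub_add_cancel]
  obtain ⟨p, hp⟩ := Int.eq_ofNat_of_zero_le (show 0 ≤ v - u by have := h.uv; omega)
  have hA₂c : #A₂ = n + c := by rw [hA₂, card_image_of_injective _ hsub, h.card]
  have hS₂c : #S₂ = #S := by rw [hS₂, card_image_of_injective _ hsub]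
  have hloss : #A ≤ #S + loss := h.inK A (Subset.refl _) (fun x _ => AddSubgroup.mem_top _)
  -- the sums
  have hsum : ∀ (P : ℤ → Prop) [DecidablePred P] (f : ℤ → ℤ),
      ∑ x ∈ S₂.filter (fun x => P (z₂ x)), f (z₂ x) =
        ∑ x ∈ S.filter (fun x => P (z x - u)), f (z x - u) := by
    intro P _ f
    rw [hS₂, sum_filter, sum_filter, sum_image (fun x _ y _ hxy => hsub hxy)]
    refine sum_congr rfl fun x _ => ?_
    simp only [hz₂']
  have hwin : t' * p + ∑ x ∈ S₂.filter (fun x => (p : ℤ) < z₂ x), (z₂ x - p) +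
      ∑ x ∈ S₂.filter (fun x => z₂ x < 0), (0 - z₂ x) + 2 ≤ o := by
    have h1 := h.win
    have h2 := hsum (fun a => (p : ℤ) < a) (fun a => a - p)
    have h3 := hsum (fun a => a < 0) (fun a => 0 - a)
    have e1 : S.filter (fun x => (p : ℤ) < z x - u) = S.filter (fun x => v < z x) :=
      filter_congr fun x _ => by omega
    have e2 : S.filter (fun x => z x - u < 0) = S.filter (fun x => z x < u) :=
      filter_congr fun x _ => by omega
    rw [e1] at h2
    rw [e2] at h3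
    have e3 : ∑ x ∈ S.filter (fun x => v < z x), (z x - u - p) =
        ∑ x ∈ S.filter (fun x => v < z x), (z x - v) := sum_congr rfl fun x _ => by omega
    have e4 : ∑ x ∈ S.filter (fun x => z x < u), (0 - (z x - u)) =
        ∑ x ∈ S.filter (fun x => z x < u), (u - z x) := sum_congr rfl fun x _ => by omega
    rw [e3] at h2
    rw [e4] at h3
    rw [h2, h3]
    have h5 : (t' : ℤ) * p = t' * (v - u) := by rw [hp]
    rw [h5]
    exact h1
  -- the translated set has no zero-sum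
  have hno₂ : ¬ Hit A₂ n 0 := fun h1 => hno (Hit.translate (hG x₀) h1)
  refine hno₂ (end_game φ hφ (A := A₂) (S := S₂) z₂ (s := s) (θ := θ) (L := loss) (q := p) h4 hκ
    hkc hFF hθ hos ht hA₂c hlow' hpar ?_ (by rw [hA₂c, hS₂c, ← h.card]; exact hloss) hL ?_
    (by rw [hS₂c]; exact h.cardS) h.kn hwin
    ?_ ?_ (Del.translate (hG x₀) hdel))
  · exact image_subset_image h.sub
  · intro y hy
    obtain ⟨x, hx, rfl⟩ := mem_image.1 hy
    rw [hz₂', hφ₀ x hx]
  · -- row 0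
    intro B hB hB0
    rw [← card_image_of_injective B (add_left_injective x₀)]
    refine h.row (q + u • e) _ ?_ ?_
    · intro w hw
      obtain ⟨y, hy, rfl⟩ := mem_image.1 hw
      obtain ⟨x, hx, rfl⟩ := mem_image.1 (hB hy)
      simp only [sub_add_cancel]
      exact hx
    · intro w hw
      obtain ⟨y, hy, rfl⟩ := mem_image.1 hw
      simp only [← hx₀, add_sub_cancel_right]
      exact (hφH y).1 (hB0 y hy)
  · -- cosets of proper subgroups
    intro K hK x₁ B hB hBK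
    have h1 : #(B.image (fun y => y + x₀)) < n + τ := by
      refine h.low K le_top ?_ (x₁ + x₀) _ ?_ ?_
      · exact card_lt_of_lt (lt_top_iff_ne_top.2 hK)
      · intro w hw
        obtain ⟨y, hy, rfl⟩ := mem_image.1 hw
        obtain ⟨x, hx, rfl⟩ := mem_image.1 (hB hy)
        simp only [sub_add_cancel]
        exact hx
      · intro w hw
        obtain ⟨y, hy, rfl⟩ := mem_image.1 hw
        simp only [add_sub_add_right_eq_sub]
        exact hBK y hy
    rw [card_image_of_injective B (add_left_injective x₀)] at h1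
    omega

/-- the parameters for `m ≥ 10 ^ 44 (log n) ^ 12` -/
theorem exists_parR {m n : ℕ} (hmn : m ≤ n) (hm : 10 ^ 44 * (Nat.log 2 n + 1) ^ 12 ≤ m) :
    ∃ ℓ M Λ k : ℕ, Par m n ℓ M Λ k ∧ ℓ = Nat.log 2 n + 1 ∧
      4000000 * (2592 * M * ℓ ^ 3 + 1) ≤ m := by
  obtain ⟨a, ha1, ha2⟩ := PAR2M.exists_fourth m
  set ℓ := Nat.log 2 n + 1 with hℓ
  have hℓ1 : 1 ≤ ℓ := by omega
  have hx : 1 ≤ ℓ ^ 3 := Nat.one_le_pow _ _ hℓ1
  have ha : 10 ^ 11 * ℓ ^ 3 ≤ a := by
    by_contra hlt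
    push Not at hlt
    have h1 : (a + 1) ^ 4 ≤ (10 ^ 11 * ℓ ^ 3) ^ 4 := Nat.pow_le_pow_left hlt 4
    have h2 : (10 ^ 11 * ℓ ^ 3) ^ 4 = 10 ^ 44 * ℓ ^ 12 := by ring
    omega
  have ha' : 10 ^ 10 * (0 + 1) ^ 4 * ℓ ^ 3 ≤ a := by
    refine le_trans ?_ ha
    exact Nat.mul_le_mul_right _ (by norm_num)
  obtain ⟨n1, n2, n3, n4, n5⟩ := PAR2M.numbers ha1 ha2 hx ha'
  have ha16 : 10 ^ 11 ≤ a := by
    calc 10 ^ 11 = 10 ^ 11 * 1 := (mul_one _).symm
      _ ≤ 10 ^ 11 * ℓ ^ 3 := Nat.mul_le_mul_left _ hx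
      _ ≤ a := ha
  have ha3 : 1 ≤ a ^ 3 := Nat.one_le_pow _ _ (by omega)
  have ha2' : 1 ≤ a ^ 2 := Nat.one_le_pow _ _ (by omega)
  have hn16 : 16 ≤ n := by
    have h1 : a ≤ a ^ 4 := Nat.le_self_pow (by norm_num) a
    omega
  have hℓ5 : 5 ≤ ℓ := by
    have h1 : 4 ≤ Nat.log 2 n := by
      refine Nat.le_log_of_pow_le (by norm_num) ?_
      norm_num
      exact hn16
    omega
  have hnℓ : n < 2 ^ ℓ := by
    rw [hℓ]
    exact Nat.lt_pow_succ_log_self (by norm_num) n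
  have hk : 6 * a ^ 2 - 1 + 1 = 6 * a ^ 2 := by omega
  refine ⟨ℓ, 5 * a ^ 3, 3 * m / (5 * a ^ 3) + 1, 6 * a ^ 2 - 1,
    ⟨hnℓ, ?_, by omega, hmn, n1, ?_, ?_, n4, n5⟩, rfl, ?_⟩
  · have hpow : ∀ x : ℕ, 5 ≤ x → 3 * x + 1 ≤ 2 ^ x := by
      intro x hx
      induction x, hx using Nat.le_induction with
      | base => norm_num
      | succ x hx ih =>
        have h9 : 2 ^ (x + 1) = 2 * 2 ^ x := by ring
        omega
    have h9 : n ^ 2 < (2 ^ ℓ) ^ 2 := Nat.pow_lt_pow_left hnℓ (by norm_num)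
    have h10 : 2 ^ (3 * ℓ) = 2 ^ ℓ * (2 ^ ℓ) ^ 2 := by
      rw [← pow_mul, ← pow_add]
      congr 1
      ring
    rw [h10]
    calc (3 * ℓ + 1) * n ^ 2 ≤ 2 ^ ℓ * n ^ 2 := Nat.mul_le_mul_right _ (hpow ℓ hℓ5)
      _ < 2 ^ ℓ * (2 ^ ℓ) ^ 2 := Nat.mul_lt_mul_of_pos_left h9 (by positivity)
  · rw [hk]
    exact n2
  · rw [hk]
    exact n3
  · obtain ⟨y, hy⟩ : ∃ y, y = ℓ ^ 3 * a ^ 3 := ⟨_, rfl⟩
    have hy1 : 1 ≤ y := by
      rw [hy]
      exact Nat.mul_pos (by omega) (by omega)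
    calc 4000000 * (2592 * (5 * a ^ 3) * ℓ ^ 3 + 1) = 51840000000 * y + 4000000 := by
          rw [hy]
          ring
      _ ≤ 10 ^ 11 * y := by omega
      _ = (10 ^ 11 * ℓ ^ 3) * a ^ 3 := by
          rw [hy]
          ring
      _ ≤ a * a ^ 3 := Nat.mul_le_mul_right _ ha
      _ = a ^ 4 := by ring
      _ ≤ m := ha1

/-- a group of odd exponent has odd order -/
theorem odd_card {G : Type*} [AddCommGroup G] [Fintype G] {n : ℕ} (hn : Odd n)
    (hG : ∀ x : G, n • x = 0) : Odd (Nat.card G) := by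
  by_contra hcon
  rw [Nat.not_odd_iff_even, even_iff_two_dvd] at hcon
  have : Fact (Nat.Prime 2) := ⟨Nat.prime_two⟩
  obtain ⟨x, hx⟩ := exists_prime_addOrderOf_dvd_card' (G := G) 2 hcon
  have h1 : addOrderOf x ∣ n := addOrderOf_dvd_of_nsmul_eq_zero (hG x)
  rw [hx] at h1
  exact (Nat.not_even_iff_odd.2 hn) (even_iff_two_dvd.2 h1)

/-- **MAINR**: the upper bound -/
theorem upper_cyc_R {G : Type*} [AddCommGroup G] [Fintype G] [DecidableEq G] {M n N w : ℕ}
    (hexp : AddMonoid.exponent G = n) (hcard : Nat.card G = M * n) (hn : 100 * M ≤ n)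
    (hw : ∀ g : G, #{x : G | x + x = g} ≤ w) (hwM : 10 ^ 8 * w ≤ M)
    (hM : 10 ^ 44 * (Nat.log 2 n + 1) ^ 12 ≤ M)
    (hN : ∀ A : Finset G, CycFree A n → #A ≤ N) {A : Finset G} (hA : #A = N + 2) : Hit A n 0 := by
  classical
  by_contra hno
  have hG : ∀ x : G, n • x = 0 := fun x => by
    rw [← hexp]
    exact AddMonoid.exponent_nsmul_eq_zero x
  have hM44 : 10 ^ 44 ≤ M := by
    have h1 : 1 ≤ (Nat.log 2 n + 1) ^ 12 := Nat.one_le_pow _ _ (by omega)
    calc 10 ^ 44 = 10 ^ 44 * 1 := (mul_one _).symm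
      _ ≤ 10 ^ 44 * (Nat.log 2 n + 1) ^ 12 := Nat.mul_le_mul_left _ h1
      _ ≤ M := hM
  have hn0 : n ≠ 0 := by omega
  have : NeZero n := ⟨hn0⟩
  -- the lower bound
  obtain ⟨A₀, c₀, hA₀, hA₀', hlow₀, hpar₀⟩ := low_R hexp hcard (by omega) hn
  have hN₀ := hN A₀ hA₀'
  obtain ⟨c, hc⟩ : ∃ c, N + 2 = n + c := ⟨N + 2 - n, by omega⟩
  have hcc : c₀ ≤ c := by omega
  have hlow : ∀ c' : ℕ, c₀ ≤ c' → (n / M + 1) * (M + 1) + n ≤ 2 * (n / M + 1) * c' :=
    fun c' hc' => hlow₀.trans (Nat.mul_le_mul_left _ hc')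
  have hpar : ∀ c' : ℕ, c₀ ≤ c' → M + 1 ≤ c' ∨ (Odd n ∧ Even (n / M)) := fun c' hc' =>
    hpar₀.imp (fun h => h.trans hc') id
  -- `c ≥ 0.995 M`
  have hclarge : ∀ c' : ℕ, c₀ ≤ c' → 199 * M ≤ 200 * c' := by
    intro c' hc'
    have h1 := hlow c' hc'
    have h2 : 100 ≤ n / M := (Nat.le_div_iff_mul_le (by omega)).2 hn
    have h3 : n < (n / M + 1) * M := by
      have e2 := Nat.div_add_mod n M
      have e3 := Nat.mod_lt n (show 0 < M by omega)
      have e4 : (n / M + 1) * M = M * (n / M) + M := by ring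
      omega
    have h4 : n / M * M ≤ n := Nat.div_mul_le_self n M
    obtain ⟨b, hb⟩ : ∃ b, b = n / M := ⟨_, rfl⟩
    rw [← hb] at h1 h2 h4
    -- `(b + 1) (M + 1) + b M ≤ 2 (b + 1) c`
    have h5 : (b + 1) * (2 * M + 1) ≤ (b + 1) * (2 * c') + M := by
      calc (b + 1) * (2 * M + 1) = (b + 1) * (M + 1) + b * M + M := by ring
        _ ≤ (b + 1) * (M + 1) + n + M := by omega
        _ ≤ 2 * (b + 1) * c' + M := by omega
        _ = (b + 1) * (2 * c') + M := by ring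
    by_contra hcon
    push Not at hcon
    have h6 : (b + 1) * (400 * c' + 1) ≤ (b + 1) * (398 * M) := Nat.mul_le_mul_left _ (by omega)
    have h7 : (b + 1) * (400 * M) = (b + 1) * (398 * M) + 2 * ((b + 1) * M) := by ring
    have h8 : 101 * M ≤ (b + 1) * M := Nat.mul_le_mul_right _ (by omega)
    have h9 : (b + 1) * (2 * M + 1) * 200 = (b + 1) * (400 * M) + 200 * (b + 1) := by ring
    have h10 : ((b + 1) * (2 * c') + M) * 200 = (b + 1) * (400 * c' + 1) - (b + 1) + 200 * M := by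
      have e1 : (b + 1) * (400 * c' + 1) = (b + 1) * (400 * c') + (b + 1) := by ring
      rw [e1, Nat.add_sub_cancel]
      ring
    have h11 := Nat.mul_le_mul_right 200 h5
    omega
  have hcl := hclarge c hcc
  -- the parameters
  obtain ⟨ℓ, P, Λ, k₀, hP, hℓ, hL⟩ := exists_parR (m := M) (n := n) (by omega) hM
  obtain ⟨loss, hloss⟩ : ∃ loss, loss = 2592 * P * ℓ ^ 3 := ⟨_, rfl⟩
  rw [← hloss] at hL
  have hℓ1 : 1 ≤ ℓ := by omega
  have hloss1 : 1 ≤ loss := by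
    rw [hloss]
    exact Nat.mul_pos (Nat.mul_pos (by norm_num) hP.hM) (Nat.pow_pos hℓ1)
  have hθ : 1000 * (600 * ℓ ^ 3 + w) ≤ M := by
    have h1 : 10 ^ 44 * ℓ ^ 12 ≤ M := by
      rw [hℓ]
      exact hM
    have h2 : 10 ^ 40 * (600000 * ℓ ^ 3) ≤ 10 ^ 4 * M := by
      calc 10 ^ 40 * (600000 * ℓ ^ 3) ≤ 10 ^ 40 * (10 ^ 8 * ℓ ^ 12) :=
            Nat.mul_le_mul_left _ (Nat.mul_le_mul (by norm_num)
              (Nat.pow_le_pow_right hℓ1 (by norm_num)))
        _ = 10 ^ 4 * (10 ^ 44 * ℓ ^ 12) := by ring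
        _ ≤ 10 ^ 4 * M := Nat.mul_le_mul_left _ h1
    omega
  have hcardG : Nat.card G ≤ n ^ 2 := by
    rw [hcard, sq]
    exact Nat.mul_le_mul_right _ (by omega)
  have hFF : ∀ K : AddSubgroup G, FatFull K (600 * ℓ ^ 3 + w) := fun K =>
    RG.fatFull hcardG hw hP.hℓ hP.hb K
  obtain ⟨τ, hτ⟩ : ∃ τ, τ = 992 * M / 1000 := ⟨_, rfl⟩
  have hτ1 : 1000 * τ ≤ 992 * M := by
    rw [hτ]
    exact Nat.mul_div_le _ _
  have hτ2 : 992 * M < 1000 * τ + 1000 := by
    rw [hτ]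
    omega
  have hGc : Fintype.card G ≤ n ^ 2 := by
    rw [← Nat.card_eq_fintype_card]
    exact hcardG
  have htop : Nat.card (⊤ : AddSubgroup G) = M * n := by
    rw [AddSubgroup.card_top, hcard]
  have key : ∀ (B : Finset G) (c' : ℕ), B ⊆ A → #B = n + c' → 199 * M ≤ 200 * c' →
      (M + 1 ≤ c' ∨ Odd n) → c' + 3 * loss ≤ n → ∃ (H : AddSubgroup G) (e q : G)
      (S : Finset G) (z : G → ℤ) (o k t' Z : ℕ) (u v : ℤ),
      Amj ⊤ ⊤ H e q B S z M n c' 1 o τ loss k t' Z u v := by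
    intro B c' hB hBc h1 hc' hcn
    refine input_R hG hGc hP htop hloss (fun x _ => AddSubgroup.mem_top x) hBc (by omega)
      (by omega) ?_ hcn fun h => hno (Hit.mono hB h)
    rcases hc' with h2 | h2
    · exact Or.inl h2
    · right
      rw [← hcard]
      exact odd_card h2 hG
  rcases Nat.lt_or_ge n (c + 3 * loss) with hcn | hcn
  · obtain ⟨B, hB, hBc⟩ := exists_subset_card_eq (show n + (n - 3 * loss) ≤ #A by omega)
    obtain ⟨H, e, q, S, z, o, k, t', Z, u, v, h⟩ := key B (n - 3 * loss) hB hBc (by omega)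
      (Or.inl (by omega)) (by omega)
    exact big_cB h (by omega) (by omega) hloss1 (by omega)
  · obtain ⟨H, e, q, S, z, o, k, t', Z, u, v, h⟩ := key A c (Subset.refl _) (by omega) hcl
      ((hpar c hcc).imp id fun h => h.1) hcn
    refine false_of_amj h hn (hlow c hcc) (hpar c hcc) hL (by omega) hG hw (by omega) hFF hθ ?_ hno
    intro o' ψ ho' hψ a ha
    have h5 : ¬ CycFree (A.erase a) n := by
      intro h6
      have h7 := hN _ h6
      rw [card_erase_of_mem ha] at h7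
      omega
    by_contra hcon
    push Not at hcon
    refine h5 ⟨o', ψ, ho', hψ, fun T hT hTc => ?_⟩
    exact hcon T (hT.trans (erase_subset _ _)) (fun h => notMem_erase a A (hT h)) hTc

end Pool.Agent.Lib.MPa7239a.RH
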